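import Pool.Agent.SZ4.Removal

/-!
[AP4-S8] Szemeredi's theorem for progressions of length 4, from the removal lemma.

Let `ε' = ε/16`, `δ` from `removal ε'`, and `N0` with `N0 ≥ 1` and `1/(4 N0) ≤ δ`.  Let `N ≥ N0`,
`m = 4 N`, `V = ZMod m`, `S x = x 0 + x 1 + x 2 + x 3`, `L e x = ∑ i, (i - e) * x i` (in `ZMod m`,
`i, e` cast from `Fin 4` to integers).  `L e` does not depend on `x e`, and `L e x = L 0 x - e * S x`.
`A e = {x | (L e x).val ∈ E}`; `Ind e (ind (A e))`.

(1) If `x ∈ A e` for all `e`, then `S x = 0`: the numbers `a e = (L e x).val ∈ E ⊆ [0, N)` satisfy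
`a 0 + a 2 ≡ 2 a 1` and `a 1 + a 3 ≡ 2 a 2 mod m`, all these numbers are `< 2 N < m`, so
`a 0 + a 2 = 2 a 1`, `a 1 + a 3 = 2 a 2` in `ℕ`: a 4-term progression in `E` (increasing or
decreasing) with difference `a 1 - a 0`, which is `0` by hypothesis; so `L 0 x = L 1 x`, that is
`S x = 0`.
(2) `#{x | S x = 0} = m^3`, so `av (∏ ind (A e)) ≤ m^3 / m^4 = 1/m ≤ δ`.
(3) `removal`: get `B e`.  Let `T = {x | S x = 0 ∧ (L 0 x).val ∈ E}`.  For `x ∈ T` all
`L e x = L 0 x`, so `x ∈ A e` for all `e`, and there is `e` with `x ∉ B e`: `T ⊆ ⋃ e, (A e \ B e)`.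
(4) For each `e`: `#(T ∩ (A e \ B e)) * m ≤ #(A e \ B e)`: the map
`(x, v) ↦ update x e v` from `(T ∩ (A e \ B e)) × V` to `A e \ B e` is well defined
(`ind (A e \ B e)` is `Ind e`) and injective (`v` is the coordinate `e` of the image, the other
coordinates are those of `x`, and `x e = -(sum of the others)` since `S x = 0`).  So
`#(T ∩ (A e \ B e)) ≤ ε' m^3`, and `#T ≤ 4 ε' m^3`.
(5) `#T = E.card * m^2`: the map `x ↦ (L 0 x, x 2, x 3)` is a bijection from `{S = 0}` to
`V × V × V`: `x 1 = L 0 x - 2 x 2 - 3 x 3`, `x 0 = -(x 1 + x 2 + x 3)`.  (Only `≥` is needed: the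
map `E × V × V → T`, `(a, y, z) ↦ ![-(b + y + z), b, y, z]` with `b = a - 2 y - 3 z` is injective.)
(6) So `E.card ≤ 4 ε' m = 16 ε' N = ε N`.
-/

set_option linter.unusedSectionVars false

namespace SZ4
open Finset
open scoped Classical

section
variable {m : ℕ}

/-- the sum of the coordinates -/
def s8_S (x : Om (ZMod m)) : ZMod m := x 0 + x 1 + x 2 + x 3

/-- the form `L 0` -/
def s8_M (x : Om (ZMod m)) : ZMod m := x 1 + 2 * x 2 + 3 * x 3

/-- the form `L e`, which does not depend on the coordinate `e` -/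
def s8_L (e : Fin 4) (x : Om (ZMod m)) : ZMod m := s8_M x - (e.val : ZMod m) * s8_S x

theorem s8_L_update (e : Fin 4) (x : Om (ZMod m)) (v : ZMod m) :
    s8_L e (Function.update x e v) = s8_L e x := by
  fin_cases e <;> simp [s8_L, s8_M, s8_S, Function.update] <;> ring

theorem s8_L_of_S (e : Fin 4) (x : Om (ZMod m)) (h : s8_S x = 0) : s8_L e x = s8_M x := by
  rw [s8_L, h, mul_zero, sub_zero]

/-- (1) -/
theorem s8_one [NeZero m] {N : ℕ} (hm : m = 4 * N) {E : Finset ℕ} (hE : E ⊆ range N)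
    (hap : ∀ a r : ℕ, 0 < r → a ∈ E → a + r ∈ E → a + 2 * r ∈ E → a + 3 * r ∈ E → False)
    (x : Om (ZMod m)) (hx : ∀ e, (s8_L e x).val ∈ E) : s8_S x = 0 := by
  have hlt : ∀ e, (s8_L e x).val < N := fun e => Finset.mem_range.1 (hE (hx e))
  have hc : ∀ e, (((s8_L e x).val : ℕ) : ZMod m) = s8_L e x := fun e => ZMod.natCast_zmod_val _
  have h02 : (s8_L 0 x).val + (s8_L 2 x).val = 2 * (s8_L 1 x).val := by
    have h1 : (((s8_L 0 x).val + (s8_L 2 x).val : ℕ) : ZMod m) =
        ((2 * (s8_L 1 x).val : ℕ) : ZMod m) := by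
      push_cast
      rw [hc, hc, hc]
      simp only [s8_L, Fin.val_zero, Fin.val_one, Fin.val_two]
      push_cast
      ring
    have h2 := (ZMod.natCast_eq_natCast_iff' _ _ _).1 h1
    have a0 := hlt 0
    have a1 := hlt 1
    have a2 := hlt 2
    rw [Nat.mod_eq_of_lt (by omega), Nat.mod_eq_of_lt (by omega)] at h2
    exact h2
  have h13 : (s8_L 1 x).val + (s8_L 3 x).val = 2 * (s8_L 2 x).val := by
    have h1 : (((s8_L 1 x).val + (s8_L 3 x).val : ℕ) : ZMod m) =
        ((2 * (s8_L 2 x).val : ℕ) : ZMod m) := by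
      push_cast
      rw [hc, hc, hc]
      have h3 : ((3 : Fin 4) : ℕ) = 3 := rfl
      simp only [s8_L, Fin.val_one, Fin.val_two, h3]
      push_cast
      ring
    have h2 := (ZMod.natCast_eq_natCast_iff' _ _ _).1 h1
    have a1 := hlt 1
    have a2 := hlt 2
    have a3 := hlt 3
    rw [Nat.mod_eq_of_lt (by omega), Nat.mod_eq_of_lt (by omega)] at h2
    exact h2
  have heq : (s8_L 0 x).val = (s8_L 1 x).val := by
    rcases Nat.lt_trichotomy (s8_L 0 x).val (s8_L 1 x).val with h | h | h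
    · exfalso
      refine hap (s8_L 0 x).val ((s8_L 1 x).val - (s8_L 0 x).val) (by omega) (hx 0) ?_ ?_ ?_
      · have : (s8_L 0 x).val + ((s8_L 1 x).val - (s8_L 0 x).val) = (s8_L 1 x).val := by omega
        rw [this]
        exact hx 1
      · have : (s8_L 0 x).val + 2 * ((s8_L 1 x).val - (s8_L 0 x).val) = (s8_L 2 x).val := by omega
        rw [this]
        exact hx 2
      · have : (s8_L 0 x).val + 3 * ((s8_L 1 x).val - (s8_L 0 x).val) = (s8_L 3 x).val := by omega
        rw [this]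
        exact hx 3
    · exact h
    · exfalso
      refine hap (s8_L 3 x).val ((s8_L 0 x).val - (s8_L 1 x).val) (by omega) (hx 3) ?_ ?_ ?_
      · have : (s8_L 3 x).val + ((s8_L 0 x).val - (s8_L 1 x).val) = (s8_L 2 x).val := by omega
        rw [this]
        exact hx 2
      · have : (s8_L 3 x).val + 2 * ((s8_L 0 x).val - (s8_L 1 x).val) = (s8_L 1 x).val := by omega
        rw [this]
        exact hx 1
      · have : (s8_L 3 x).val + 3 * ((s8_L 0 x).val - (s8_L 1 x).val) = (s8_L 0 x).val := by omega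
        rw [this]
        exact hx 0
  have h4 : s8_L 0 x = s8_L 1 x := by
    rw [← hc 0, ← hc 1, heq]
  simp only [s8_L, Fin.val_zero, Fin.val_one] at h4
  push_cast at h4
  linear_combination h4

theorem s8_card [NeZero m] : (Fintype.card (Om (ZMod m)) : ℝ) = (m : ℝ) ^ 4 := by
  rw [Fintype.card_fun, ZMod.card, Fintype.card_fin]
  push_cast
  rfl

theorem s8_av_ind [NeZero m] (B : Set (Om (ZMod m))) :
    av (ind B) * (m : ℝ) ^ 4 = ((univ.filter (fun x => x ∈ B)).card : ℝ) := by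
  have hm : (m : ℝ) ≠ 0 := Nat.cast_ne_zero.2 (NeZero.ne m)
  unfold av ind
  rw [s8_card, div_mul_cancel₀ _ (pow_ne_zero 4 hm), Finset.sum_boole]

/-- (2) -/
theorem s8_card_S [NeZero m] (C : Set (Om (ZMod m))) (hC : ∀ x ∈ C, s8_S x = 0) :
    (univ.filter (fun x : Om (ZMod m) => x ∈ C)).card ≤ m ^ 3 := by
  have h1 : (univ : Finset (ZMod m × ZMod m × ZMod m)).card = m ^ 3 := by
    rw [Finset.card_univ, Fintype.card_prod, Fintype.card_prod, ZMod.card]
    ring
  rw [← h1]
  refine Finset.card_le_card_of_injOn (fun x => (x 1, x 2, x 3)) (fun _ _ => Finset.mem_coe.2 (Finset.mem_univ _)) ?_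
  intro x hx y hy hxy
  have hx := hC x (Finset.mem_filter.1 (Finset.mem_coe.1 hx)).2
  have hy := hC y (Finset.mem_filter.1 (Finset.mem_coe.1 hy)).2
  simp only [Prod.mk.injEq] at hxy
  obtain ⟨h1, h2, h3⟩ := hxy
  unfold s8_S at hx hy
  have h0 : x 0 = y 0 := by
    rw [h1, h2, h3] at hx
    linear_combination hx - hy
  funext i
  fin_cases i
  · exact h0
  · exact h1
  · exact h2
  · exact h3

/-- (4) -/
theorem s8_fiber [NeZero m] (e : Fin 4) (C : Set (Om (ZMod m))) (hC : Ind e (ind C)) :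
    (univ.filter (fun x : Om (ZMod m) => s8_S x = 0 ∧ x ∈ C)).card * m ≤
      (univ.filter (fun x : Om (ZMod m) => x ∈ C)).card := by
  have hmem : ∀ (x : Om (ZMod m)) (v : ZMod m), x ∈ C → Function.update x e v ∈ C := by
    intro x v hx
    have h1 := hC x v
    unfold ind at h1
    rw [if_pos hx] at h1
    by_contra h2
    rw [if_neg h2] at h1
    norm_num at h1
  have h1 : (univ.filter (fun x : Om (ZMod m) => s8_S x = 0 ∧ x ∈ C)).card * m =
      ((univ.filter (fun x : Om (ZMod m) => s8_S x = 0 ∧ x ∈ C)) ×ˢ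
        (univ : Finset (ZMod m))).card := by
    rw [Finset.card_product, Finset.card_univ, ZMod.card]
  rw [h1]
  refine Finset.card_le_card_of_injOn (fun p => Function.update p.1 e p.2) ?_ ?_
  · rintro ⟨x, v⟩ hp
    simp only [Finset.coe_product, Finset.coe_filter, Finset.mem_univ, true_and, Set.mem_prod,
      Set.mem_ofPred_eq, Finset.coe_univ, Set.mem_univ, and_true] at hp ⊢
    exact hmem x v hp.2
  · rintro ⟨x, v⟩ hp ⟨y, u⟩ hq hpq
    simp only [Finset.coe_product, Finset.coe_filter, Finset.mem_univ, true_and, Set.mem_prod,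
      Set.mem_ofPred_eq, Finset.coe_univ, Set.mem_univ, and_true] at hp hq
    dsimp only at hpq
    have hv : v = u := by
      have h2 := congrFun hpq e
      rw [Function.update_self, Function.update_self] at h2
      exact h2
    have hne : ∀ i, i ≠ e → x i = y i := by
      intro i hi
      have h2 := congrFun hpq i
      rw [Function.update_of_ne hi, Function.update_of_ne hi] at h2
      exact h2
    have hx := hp.1
    have hy := hq.1
    unfold s8_S at hx hy
    have he : x e = y e := by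
      fin_cases e
      · have a1 := hne 1 (by decide)
        have a2 := hne 2 (by decide)
        have a3 := hne 3 (by decide)
        show x 0 = y 0
        rw [a1, a2, a3] at hx
        linear_combination hx - hy
      · have a1 := hne 0 (by decide)
        have a2 := hne 2 (by decide)
        have a3 := hne 3 (by decide)
        show x 1 = y 1
        rw [a1, a2, a3] at hx
        linear_combination hx - hy
      · have a1 := hne 0 (by decide)
        have a2 := hne 1 (by decide)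
        have a3 := hne 3 (by decide)
        show x 2 = y 2
        rw [a1, a2, a3] at hx
        linear_combination hx - hy
      · have a1 := hne 0 (by decide)
        have a2 := hne 1 (by decide)
        have a3 := hne 2 (by decide)
        show x 3 = y 3
        rw [a1, a2, a3] at hx
        linear_combination hx - hy
    have hxy : x = y := by
      funext i
      by_cases hi : i = e
      · rw [hi, he]
      · exact hne i hi
    rw [hv, hxy]

/-- (5) -/
theorem s8_card_T [NeZero m] {N : ℕ} (hm : m = 4 * N) {E : Finset ℕ} (hE : E ⊆ range N) :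
    E.card * m ^ 2 ≤
      (univ.filter (fun x : Om (ZMod m) => s8_S x = 0 ∧ (s8_M x).val ∈ E)).card := by
  have h1 : E.card * m ^ 2 = (E ×ˢ (univ : Finset (ZMod m × ZMod m))).card := by
    rw [Finset.card_product, Finset.card_univ, Fintype.card_prod, ZMod.card]
    ring
  rw [h1]
  have hlt : ∀ a ∈ E, a < m := by
    intro a ha
    have := Finset.mem_range.1 (hE ha)
    omega
  let g : ℕ × ZMod m × ZMod m → Om (ZMod m) := fun p =>
    ![-(((p.1 : ℕ) : ZMod m) - 2 * p.2.1 - 3 * p.2.2 + p.2.1 + p.2.2),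
      ((p.1 : ℕ) : ZMod m) - 2 * p.2.1 - 3 * p.2.2, p.2.1, p.2.2]
  have g0 : ∀ p, g p 0 = -(((p.1 : ℕ) : ZMod m) - 2 * p.2.1 - 3 * p.2.2 + p.2.1 + p.2.2) :=
    fun p => rfl
  have g1 : ∀ p, g p 1 = ((p.1 : ℕ) : ZMod m) - 2 * p.2.1 - 3 * p.2.2 := fun p => rfl
  have g2 : ∀ p, g p 2 = p.2.1 := fun p => rfl
  have g3 : ∀ p, g p 3 = p.2.2 := fun p => rfl
  have hM : ∀ p, s8_M (g p) = ((p.1 : ℕ) : ZMod m) := by
    intro p
    rw [s8_M, g1, g2, g3]
    ring
  have hS : ∀ p, s8_S (g p) = 0 := by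
    intro p
    rw [s8_S, g0, g1, g2, g3]
    ring
  refine Finset.card_le_card_of_injOn g ?_ ?_
  · rintro p hp
    simp only [Finset.coe_product, Set.mem_prod, Finset.mem_coe] at hp
    simp only [Finset.coe_filter, Finset.mem_univ, true_and, Set.mem_ofPred_eq]
    refine ⟨hS p, ?_⟩
    rw [hM, ZMod.val_cast_of_lt (hlt _ hp.1)]
    exact hp.1
  · intro p hp q hq hpq
    simp only [Finset.coe_product, Set.mem_prod, Finset.mem_coe] at hp hq
    have e1 : ((p.1 : ℕ) : ZMod m) = ((q.1 : ℕ) : ZMod m) := by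
      rw [← hM, ← hM, hpq]
    have e2 : p.1 = q.1 := by
      have h2 := congrArg ZMod.val e1
      rw [ZMod.val_cast_of_lt (hlt _ hp.1), ZMod.val_cast_of_lt (hlt _ hq.1)] at h2
      exact h2
    have e3 : p.2.1 = q.2.1 := by rw [← g2, ← g2, hpq]
    have e4 : p.2.2 = q.2.2 := by rw [← g3, ← g3, hpq]
    exact Prod.ext e2 (Prod.ext e3 e4)

end

theorem sz4 {ε : ℝ} (hε : 0 < ε) :
    ∃ N0 : ℕ, ∀ N : ℕ, N0 ≤ N → ∀ E : Finset ℕ, E ⊆ range N →
      (∀ a r : ℕ, 0 < r → a ∈ E → a + r ∈ E → a + 2 * r ∈ E → a + 3 * r ∈ E → False) →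
      (E.card : ℝ) ≤ ε * N := by
  obtain ⟨δ, hδ, hrem⟩ := removal (ε := ε / 16) (by positivity)
  obtain ⟨N1, hN1⟩ := exists_nat_gt (1 / δ)
  refine ⟨N1 + 1, ?_⟩
  intro N hN E hE hap
  have hNpos : 0 < N := by omega
  obtain ⟨m, hm⟩ : ∃ m, m = 4 * N := ⟨_, rfl⟩
  have hm0 : m ≠ 0 := by omega
  have : NeZero m := ⟨hm0⟩
  have hmR : (0 : ℝ) < m := by
    have : 0 < m := Nat.pos_of_ne_zero hm0
    exact_mod_cast this
  have hmN : (m : ℝ) = 4 * N := by
    rw [hm]
    push_cast
    rfl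
  have hδm : 1 ≤ δ * m := by
    have h1 : 1 / δ < (m : ℝ) := by
      refine hN1.trans_le ?_
      have : N1 ≤ m := by omega
      exact_mod_cast this
    rw [div_lt_iff₀ hδ] at h1
    linarith
  let A : Fin 4 → Set (Om (ZMod m)) := fun e => {x | (s8_L e x).val ∈ E}
  have hA : ∀ e, Ind e (ind (A e)) := by
    intro e x v
    have h1 : (Function.update x e v ∈ A e) ↔ x ∈ A e := by
      show (s8_L e (Function.update x e v)).val ∈ E ↔ (s8_L e x).val ∈ E
      rw [s8_L_update]
    unfold ind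
    by_cases h : x ∈ A e
    · rw [if_pos h, if_pos (h1.2 h)]
    · rw [if_neg h, if_neg (fun h2 => h (h1.1 h2))]
  have hprod : av (fun x => ∏ e, ind (A e) x) ≤ δ := by
    have h1 : av (fun x => ∏ e, ind (A e) x) ≤ av (ind {x : Om (ZMod m) | s8_S x = 0}) := by
      refine av_mono fun x => ?_
      by_cases h : ∀ e, x ∈ A e
      · have h2 : x ∈ {x : Om (ZMod m) | s8_S x = 0} := s8_one hm hE hap x h
        have h3 : ∏ e, ind (A e) x = 1 := Finset.prod_eq_one fun e _ => by
          unfold ind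
          rw [if_pos (h e)]
        rw [h3]
        unfold ind
        rw [if_pos h2]
      · push Not at h
        obtain ⟨e, he⟩ := h
        have h3 : ∏ e, ind (A e) x = 0 := Finset.prod_eq_zero (Finset.mem_univ e) (by
          unfold ind
          rw [if_neg he])
        rw [h3]
        exact (ui_ind _ x).1
    refine h1.trans ?_
    have h2 := s8_av_ind (m := m) {x : Om (ZMod m) | s8_S x = 0}
    have h3 : av (ind {x : Om (ZMod m) | s8_S x = 0}) * (m : ℝ) ^ 4 ≤ (m : ℝ) ^ 3 := by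
      rw [h2]
      exact_mod_cast s8_card_S (m := m) {x : Om (ZMod m) | s8_S x = 0} (fun x hx => hx)
    have h4 : av (ind {x : Om (ZMod m) | s8_S x = 0}) * m ≤ 1 := by
      have h5 : (0 : ℝ) < (m : ℝ) ^ 3 := by positivity
      have h6 : av (ind {x : Om (ZMod m) | s8_S x = 0}) * m * (m : ℝ) ^ 3 ≤ 1 * (m : ℝ) ^ 3 := by
        calc av (ind {x : Om (ZMod m) | s8_S x = 0}) * m * (m : ℝ) ^ 3
            = av (ind {x : Om (ZMod m) | s8_S x = 0}) * (m : ℝ) ^ 4 := by ring
          _ ≤ (m : ℝ) ^ 3 := h3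
          _ = 1 * (m : ℝ) ^ 3 := by ring
      exact le_of_mul_le_mul_right h6 h5
    exact le_of_mul_le_mul_right (h4.trans hδm) hmR
  obtain ⟨B, hB, hBA, hav, hcov⟩ := hrem (ZMod m) A hA hprod
  -- the sets `T e`
  let Te : Fin 4 → Finset (Om (ZMod m)) := fun e =>
    univ.filter (fun x : Om (ZMod m) => s8_S x = 0 ∧ x ∈ A e \ B e)
  have hTe : ∀ e, ((Te e).card : ℝ) ≤ ε / 16 * (m : ℝ) ^ 3 := by
    intro e
    have hInd : Ind e (ind (A e \ B e)) := by
      have h1 : ind (A e \ B e) = fun x => ind (A e) x * (1 - ind (B e) x) := by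
        funext x
        unfold ind
        by_cases h2 : x ∈ A e
        · by_cases h3 : x ∈ B e
          · simp [h2, h3]
          · simp [h2, h3]
        · simp [h2]
      rw [h1]
      intro x v
      dsimp only
      rw [hA e x v, hB e x v]
    have h1 := s8_fiber e (A e \ B e) hInd
    have h2 := s8_av_ind (m := m) (A e \ B e)
    have h3 : ((Te e).card : ℝ) * m ≤ av (ind (A e \ B e)) * (m : ℝ) ^ 4 := by
      rw [h2]
      exact_mod_cast h1
    have h4 : ((Te e).card : ℝ) * m ≤ (ε / 16 * (m : ℝ) ^ 3) * m := by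
      calc ((Te e).card : ℝ) * m ≤ av (ind (A e \ B e)) * (m : ℝ) ^ 4 := h3
        _ ≤ ε / 16 * (m : ℝ) ^ 4 := mul_le_mul_of_nonneg_right (hav e) (by positivity)
        _ = (ε / 16 * (m : ℝ) ^ 3) * m := by ring
    exact le_of_mul_le_mul_right h4 hmR
  have hT : ((univ.filter (fun x : Om (ZMod m) => s8_S x = 0 ∧ (s8_M x).val ∈ E)).card : ℝ) ≤
      4 * (ε / 16 * (m : ℝ) ^ 3) := by
    have h1 : univ.filter (fun x : Om (ZMod m) => s8_S x = 0 ∧ (s8_M x).val ∈ E) ⊆
        (univ : Finset (Fin 4)).biUnion Te := by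
      intro x hx
      rw [Finset.mem_filter] at hx
      obtain ⟨-, hx1, hx2⟩ := hx
      obtain ⟨e, he⟩ := hcov x
      rw [Finset.mem_biUnion]
      refine ⟨e, Finset.mem_univ e, ?_⟩
      rw [Finset.mem_filter]
      refine ⟨Finset.mem_univ x, hx1, ?_, he⟩
      show (s8_L e x).val ∈ E
      rw [s8_L_of_S e x hx1]
      exact hx2
    have h2 : (univ.filter (fun x : Om (ZMod m) => s8_S x = 0 ∧ (s8_M x).val ∈ E)).card ≤
        ∑ e : Fin 4, (Te e).card := (Finset.card_le_card h1).trans Finset.card_biUnion_le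
    calc ((univ.filter (fun x : Om (ZMod m) => s8_S x = 0 ∧ (s8_M x).val ∈ E)).card : ℝ)
        ≤ ∑ e : Fin 4, ((Te e).card : ℝ) := by exact_mod_cast h2
      _ ≤ ∑ _e : Fin 4, (ε / 16 * (m : ℝ) ^ 3) := Finset.sum_le_sum fun e _ => hTe e
      _ = 4 * (ε / 16 * (m : ℝ) ^ 3) := by
        rw [Finset.sum_const, Finset.card_univ, Fintype.card_fin, nsmul_eq_mul]
        norm_num
  have h5 : (E.card : ℝ) * (m : ℝ) ^ 2 ≤ 4 * (ε / 16 * (m : ℝ) ^ 3) := by
    refine le_trans ?_ hT
    exact_mod_cast s8_card_T hm hE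
  have h6 : (E.card : ℝ) * (m : ℝ) ^ 2 ≤ (ε * N) * (m : ℝ) ^ 2 := by
    calc (E.card : ℝ) * (m : ℝ) ^ 2 ≤ 4 * (ε / 16 * (m : ℝ) ^ 3) := h5
      _ = (ε * N) * (m : ℝ) ^ 2 := by
        have h7 : (m : ℝ) ^ 3 = (m : ℝ) ^ 2 * (4 * N) := by rw [← hmN]; ring
        rw [h7]
        ring
  exact le_of_mul_le_mul_right h6 (by positivity)

end SZ4
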