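import Pool.Agent.SZ4.Defs

/-!
[AP4-S1a] toolkit for the average `av`, for `Ind`, `Dep`, `UI`, `Fac`.
All proofs are short.  Keep the statements exactly as they are.
-/

set_option linter.unusedSectionVars false

namespace SZ4
open Finset
open scoped Classical

variable {V : Type} [Fintype V] [Nonempty V]

theorem card_pos' : (0 : ℝ) < (Fintype.card (Om V) : ℝ) := by
  exact_mod_cast Fintype.card_pos

theorem av_congr {f g : Om V → ℝ} (h : ∀ x, f x = g x) : av f = av g := by
  rw [funext h]

theorem av_add (f g : Om V → ℝ) : av (fun x => f x + g x) = av f + av g := by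
  unfold av
  rw [Finset.sum_add_distrib, add_div]

theorem av_sub (f g : Om V → ℝ) : av (fun x => f x - g x) = av f - av g := by
  unfold av
  rw [Finset.sum_sub_distrib, sub_div]

theorem av_const_mul (c : ℝ) (f : Om V → ℝ) : av (fun x => c * f x) = c * av f := by
  unfold av
  rw [← Finset.mul_sum, mul_div_assoc]

theorem av_mul_const (c : ℝ) (f : Om V → ℝ) : av (fun x => f x * c) = av f * c := by
  unfold av
  rw [← Finset.sum_mul, div_mul_eq_mul_div]

theorem av_const (c : ℝ) : av (fun _ : Om V => c) = c := by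
  unfold av
  rw [Finset.sum_const, Finset.card_univ, nsmul_eq_mul, mul_div_cancel_left₀ _ card_pos'.ne']

theorem av_sum {ι : Type} (s : Finset ι) (f : ι → Om V → ℝ) :
    av (fun x => ∑ i ∈ s, f i x) = ∑ i ∈ s, av (f i) := by
  unfold av
  rw [Finset.sum_comm, Finset.sum_div]

theorem av_mono {f g : Om V → ℝ} (h : ∀ x, f x ≤ g x) : av f ≤ av g := by
  unfold av
  exact div_le_div_of_nonneg_right (Finset.sum_le_sum fun x _ => h x) card_pos'.le

theorem av_nonneg {f : Om V → ℝ} (h : ∀ x, 0 ≤ f x) : 0 ≤ av f := by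
  unfold av
  exact div_nonneg (Finset.sum_nonneg fun x _ => h x) card_pos'.le

theorem abs_av_le (f : Om V → ℝ) : |av f| ≤ av (fun x => |f x|) := by
  unfold av
  rw [abs_div, abs_of_pos (card_pos' (V := V))]
  exact div_le_div_of_nonneg_right (Finset.abs_sum_le_sum_abs _ _) card_pos'.le

/-- Cauchy-Schwarz. -/
theorem av_mul_sq_le (f g : Om V → ℝ) :
    (av (fun x => f x * g x)) ^ 2 ≤ av (fun x => f x ^ 2) * av (fun x => g x ^ 2) := by
  unfold av
  rw [div_pow, div_mul_div_comm, ← sq]
  exact div_le_div_of_nonneg_right (Finset.sum_mul_sq_le_sq_mul_sq _ _ _) (sq_nonneg _)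

theorem sq_av_le (f : Om V → ℝ) : (av f) ^ 2 ≤ av (fun x => f x ^ 2) := by
  have h := av_mul_sq_le f (fun _ => 1)
  simp only [mul_one, one_pow, av_const] at h
  exact h

theorem UI.av_mem {f : Om V → ℝ} (h : UI f) : 0 ≤ av f ∧ av f ≤ 1 := by
  refine ⟨av_nonneg fun x => (h x).1, ?_⟩
  have h1 := av_mono (f := f) (g := fun _ => 1) fun x => (h x).2
  rwa [av_const] at h1

/-! indicators -/

theorem ui_ind (B : Set (Om V)) : UI (ind B) := by
  intro x
  unfold ind
  split_ifs
  · exact ⟨zero_le_one, le_rfl⟩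
  · exact ⟨le_rfl, zero_le_one⟩

theorem ind_inter (B C : Set (Om V)) (x : Om V) : ind (B ∩ C) x = ind B x * ind C x := by
  unfold ind
  by_cases h1 : x ∈ B
  · by_cases h2 : x ∈ C
    · simp [h1, h2]
    · simp [h1, h2]
  · simp [h1]

theorem av_ind_mono {B C : Set (Om V)} (h : B ⊆ C) : av (ind B) ≤ av (ind C) := by
  refine av_mono fun x => ?_
  unfold ind
  by_cases h1 : x ∈ B
  · rw [if_pos h1, if_pos (h h1)]
  · rw [if_neg h1]
    split_ifs
    · exact zero_le_one
    · exact le_rfl

theorem av_ind_union_le (B C : Set (Om V)) : av (ind (B ∪ C)) ≤ av (ind B) + av (ind C) := by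
  rw [← av_add]
  refine av_mono fun x => ?_
  unfold ind
  by_cases h1 : x ∈ B
  · by_cases h2 : x ∈ C
    · simp [h1, h2]
    · simp [h1, h2]
  · by_cases h2 : x ∈ C
    · simp [h1, h2]
    · simp [h1, h2]

theorem av_ind_biUnion_le {ι : Type} (s : Finset ι) (B : ι → Set (Om V)) :
    av (ind {x | ∃ i ∈ s, x ∈ B i}) ≤ ∑ i ∈ s, av (ind (B i)) := by
  rw [← av_sum]
  refine av_mono fun x => ?_
  by_cases h1 : ∃ i ∈ s, x ∈ B i
  · obtain ⟨i, hi, hx⟩ := h1
    have h2 : ind (B i) x = 1 := by
      unfold ind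
      rw [if_pos hx]
    calc ind {x | ∃ i ∈ s, x ∈ B i} x ≤ 1 := (ui_ind _ x).2
      _ = ind (B i) x := h2.symm
      _ ≤ ∑ i ∈ s, ind (B i) x :=
        Finset.single_le_sum (f := fun i => ind (B i) x) (fun j _ => (ui_ind _ x).1) hi
  · have h2 : ind {x | ∃ i ∈ s, x ∈ B i} x = 0 := by
      unfold ind
      rw [if_neg]
      exact h1
    rw [h2]
    exact Finset.sum_nonneg fun j _ => (ui_ind _ x).1

/-! `UI` closure -/

theorem ui_const {c : ℝ} (h0 : 0 ≤ c) (h1 : c ≤ 1) : UI (fun _ : Om V => c) := fun _ => ⟨h0, h1⟩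

theorem UI.mul {f g : Om V → ℝ} (hf : UI f) (hg : UI g) : UI (fun x => f x * g x) := by
  intro x
  exact ⟨mul_nonneg (hf x).1 (hg x).1, mul_le_one₀ (hf x).2 (hg x).1 (hg x).2⟩

theorem UI.prod {ι : Type} (s : Finset ι) {f : ι → Om V → ℝ} (h : ∀ i ∈ s, UI (f i)) :
    UI (fun x => ∏ i ∈ s, f i x) := by
  intro x
  exact ⟨Finset.prod_nonneg fun i hi => (h i hi x).1,
    Finset.prod_le_one (fun i hi => (h i hi x).1) fun i hi => (h i hi x).2⟩

/-! `Ind` and `Dep` closure -/

theorem ind_const (p : Fin 4) (c : ℝ) : Ind p (fun _ : Om V => c) := fun _ _ => rfl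

theorem Ind.mul {p : Fin 4} {f g : Om V → ℝ} (hf : Ind p f) (hg : Ind p g) :
    Ind p (fun x => f x * g x) := by
  intro x v
  show f (Function.update x p v) * g (Function.update x p v) = f x * g x
  rw [hf, hg]

theorem Ind.prod {ι : Type} {p : Fin 4} (s : Finset ι) {f : ι → Om V → ℝ}
    (h : ∀ i ∈ s, Ind p (f i)) : Ind p (fun x => ∏ i ∈ s, f i x) := by
  intro x v
  exact Finset.prod_congr rfl fun i hi => h i hi x v

theorem Dep.mono {s t : Finset (Fin 4)} {f : Om V → ℝ} (h : s ⊆ t) (hf : Dep s f) : Dep t f := fun p hp => hf p fun h' => hp (h h')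

theorem Dep.mul {s : Finset (Fin 4)} {f g : Om V → ℝ} (hf : Dep s f) (hg : Dep s g) :
    Dep s (fun x => f x * g x) := fun p hp => (hf p hp).mul (hg p hp)

theorem Dep.sub {s : Finset (Fin 4)} {f g : Om V → ℝ} (hf : Dep s f) (hg : Dep s g) :
    Dep s (fun x => f x - g x) := by
  intro p hp x v
  show f (Function.update x p v) - g (Function.update x p v) = f x - g x
  rw [hf p hp, hg p hp]

theorem Dep.abs {s : Finset (Fin 4)} {f : Om V → ℝ} (hf : Dep s f) : Dep s (fun x => |f x|) := by
  intro p hp x v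
  show |f (Function.update x p v)| = |f x|
  rw [hf p hp]

theorem Dep.pow {s : Finset (Fin 4)} {f : Om V → ℝ} (hf : Dep s f) (n : ℕ) :
    Dep s (fun x => f x ^ n) := by
  intro p hp x v
  show f (Function.update x p v) ^ n = f x ^ n
  rw [hf p hp]

theorem Dep.prod {ι : Type} {s : Finset (Fin 4)} (S : Finset ι) {f : ι → Om V → ℝ}
    (h : ∀ i ∈ S, Dep s (f i)) : Dep s (fun x => ∏ i ∈ S, f i x) := fun p hp => Ind.prod S fun i hi => h i hi p hp

theorem dep_compl_iff (e : Fin 4) (f : Om V → ℝ) : Dep ({e}ᶜ) f ↔ Ind e f := by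
  unfold Dep
  constructor
  · intro h
    exact h e (by simp)
  · intro h p hp
    have : p = e := by
      by_contra hne
      exact hp (by simp [hne])
    rw [this]
    exact h

/-- a set `B` with `Dep t (ind B)` has membership depending only on the coordinates in `t` -/
theorem dep_ind_iff (t : Finset (Fin 4)) (B : Set (Om V)) :
    Dep t (ind B) ↔ ∀ p, p ∉ t → ∀ (x : Om V) (v : V), (Function.update x p v ∈ B ↔ x ∈ B) := by
  have key : ∀ x y : Om V, ind B y = ind B x ↔ (y ∈ B ↔ x ∈ B) := by
    intro x y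
    unfold ind
    by_cases h1 : y ∈ B <;> by_cases h2 : x ∈ B <;> simp [h1, h2]
  constructor
  · intro h p hp x v
    exact (key _ _).1 (h p hp x v)
  · intro h p hp x v
    exact (key _ _).2 (h p hp x v)

/-! `piecewise` -/

/-- change the coordinates outside `s` one at a time. -/
theorem Dep.piecewise {s : Finset (Fin 4)} {f : Om V → ℝ} (h : Dep s f) (x z : Om V) :
    f (s.piecewise x z) = f x := by
  have key : ∀ T : Finset (Fin 4), (∀ i ∈ T, i ∉ s) → f (T.piecewise z x) = f x := by
    intro T
    induction T using Finset.induction_on with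
    | empty =>
      intro _
      rw [Finset.piecewise_empty]
    | insert a T ha ih =>
      intro hT
      rw [Finset.piecewise_insert, h a (hT a (Finset.mem_insert_self a T))]
      exact ih fun i hi => hT i (Finset.mem_insert_of_mem hi)
  have h1 := key sᶜ fun i hi => Finset.mem_compl.1 hi
  rwa [Finset.piecewise_compl] at h1

/-- The map `(x,z) ↦ (s.piecewise x z, s.piecewise z x)` is an involution of `Om V × Om V`. -/
theorem av_swap (s : Finset (Fin 4)) (F : Om V → Om V → ℝ) :
    av (fun z => av (fun x => F (s.piecewise x z) (s.piecewise z x))) =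
      av (fun z => av (fun x => F x z)) := by
  have h1 : ∀ G : Om V → Om V → ℝ, av (fun z => av (fun x => G x z)) =
      (∑ p : Om V × Om V, G p.1 p.2) / (Fintype.card (Om V) : ℝ) / (Fintype.card (Om V) : ℝ) := by
    intro G
    unfold av
    rw [← Finset.sum_div, Fintype.sum_prod_type, Finset.sum_comm]
  rw [h1 (fun x z => F (s.piecewise x z) (s.piecewise z x)), h1 F]
  congr 2
  have hinv : Function.Involutive fun p : Om V × Om V =>
      ((s.piecewise p.1 p.2, s.piecewise p.2 p.1) : Om V × Om V) := by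
    intro p
    refine Prod.ext ?_ ?_
    · funext i
      by_cases hi : i ∈ s <;> simp [Finset.piecewise, hi]
    · funext i
      by_cases hi : i ∈ s <;> simp [Finset.piecewise, hi]
  exact Fintype.sum_equiv hinv.toPerm _ _ fun p => rfl

/-- from `av_swap` with `F x z := F x`. -/
theorem av_fiber (s : Finset (Fin 4)) (F : Om V → ℝ) :
    av F = av (fun z => av (fun x => F (s.piecewise x z))) := by
  have h := av_swap s (fun x _ => F x)
  rw [h, av_const]

/-- projection onto the functions depending only on the coordinates in `s` -/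
noncomputable def proj (s : Finset (Fin 4)) (F : Om V → ℝ) : Om V → ℝ :=
  fun x => av (fun z => F (s.piecewise x z))

theorem dep_proj (s : Finset (Fin 4)) (F : Om V → ℝ) : Dep s (proj s F) := by
  intro p hp x v
  unfold proj
  refine av_congr fun z => ?_
  congr 1
  funext i
  by_cases hi : i ∈ s
  · have hne : i ≠ p := fun h => hp (h ▸ hi)
    rw [Finset.piecewise_eq_of_mem _ _ _ hi, Finset.piecewise_eq_of_mem _ _ _ hi,
      Function.update_of_ne hne]
  · rw [Finset.piecewise_eq_of_notMem _ _ _ hi, Finset.piecewise_eq_of_notMem _ _ _ hi]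

private theorem av_comm_aux (G : Om V → Om V → ℝ) :
    av (fun z => av (fun x => G x z)) = av (fun x => av (fun z => G x z)) := by
  unfold av
  rw [← Finset.sum_div, ← Finset.sum_div, Finset.sum_comm]

/-- `av (F a) = av_x av_z (F a)(piecewise x z)` (use `av_swap` with `F x z := F x` and exchange the
two averages, or `av_swap` for `s` with the roles exchanged), and `a (s.piecewise x z) = a x`. -/
theorem av_proj_mul {s : Finset (Fin 4)} (F : Om V → ℝ) {a : Om V → ℝ} (ha : Dep s a) :
    av (fun x => F x * a x) = av (fun x => proj s F x * a x) := by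
  rw [av_fiber s (fun x => F x * a x), av_comm_aux]
  refine av_congr fun x => ?_
  unfold proj
  rw [← av_mul_const]
  refine av_congr fun z => ?_
  rw [ha.piecewise x z]

/-- independence -/
theorem av_mul_of_dep {s : Finset (Fin 4)} {f g : Om V → ℝ} (hf : Dep s f) (hg : Dep sᶜ g) :
    av (fun x => f x * g x) = av f * av g := by
  rw [av_fiber s (fun x => f x * g x)]
  have h1 : ∀ z : Om V, av (fun x => f (s.piecewise x z) * g (s.piecewise x z)) = av f * g z := by
    intro z
    rw [← av_mul_const]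
    refine av_congr fun x => ?_
    have h2 := hg.piecewise z x
    rw [Finset.piecewise_compl] at h2
    rw [hf.piecewise x z, h2]
  rw [av_congr h1, av_const_mul]

theorem av_mul_of_ind {p : Fin 4} {f g : Om V → ℝ} (hf : Ind p f) (hg : Dep {p} g) :
    av (fun x => f x * g x) = av f * av g := by
  have h1 : Dep ({p}ᶜ) f := (dep_compl_iff p f).2 hf
  have h2 : Dep ({p}ᶜ)ᶜ g := by
    rw [compl_compl]
    exact hg
  exact av_mul_of_dep h1 h2

/-- functions of single different coordinates are independent -/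
theorem av_prod_single (s : Finset (Fin 4)) {c : Fin 4 → Om V → ℝ} (hc : ∀ i ∈ s, Dep {i} (c i)) :
    av (fun x => ∏ i ∈ s, c i x) = ∏ i ∈ s, av (c i) := by
  induction s using Finset.induction_on with
  | empty =>
    simp only [Finset.prod_empty]
    exact av_const 1
  | insert a s ha ih =>
    have h1 : Dep ({a} : Finset (Fin 4)) (c a) := hc a (Finset.mem_insert_self a s)
    have h2 : Dep ({a} : Finset (Fin 4))ᶜ (fun x => ∏ i ∈ s, c i x) := by
      refine Dep.prod s fun i hi => (hc i (Finset.mem_insert_of_mem hi)).mono ?_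
      intro j hj
      rw [Finset.mem_singleton] at hj
      rw [Finset.mem_compl, Finset.mem_singleton, hj]
      intro h
      exact ha (h ▸ hi)
    rw [Finset.prod_insert ha, ← ih fun i hi => hc i (Finset.mem_insert_of_mem hi),
      ← av_mul_of_dep h1 h2]
    refine av_congr fun x => ?_
    rw [Finset.prod_insert ha]

/-- a function of the coordinates in `s` is independent of the product of functions of the other
single coordinates -/
theorem av_mul_prod_single {s : Finset (Fin 4)} (t : Finset (Fin 4)) (hst : Disjoint s t)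
    {f : Om V → ℝ} (hf : Dep s f) {c : Fin 4 → Om V → ℝ} (hc : ∀ i ∈ t, Dep {i} (c i)) :
    av (fun x => f x * ∏ i ∈ t, c i x) = av f * ∏ i ∈ t, av (c i) := by
  have h2 : Dep sᶜ (fun x => ∏ i ∈ t, c i x) := by
    refine Dep.prod t fun i hi => (hc i hi).mono ?_
    intro j hj
    rw [Finset.mem_singleton] at hj
    rw [Finset.mem_compl, hj]
    intro h
    exact Finset.disjoint_left.1 hst h hi
  rw [← av_prod_single t hc, ← av_mul_of_dep hf h2]

/-! `Fac` closure -/

theorem fac_of_ind {T : Finset (Fin 4)} {p : Fin 4} (hp : p ∈ T) {w : Om V → ℝ} (h : Ind p w)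
    (hu : UI w) : Fac T w := by
  refine ⟨fun q => if q = p then w else fun _ => 1, fun q _ => ?_, fun q _ => ?_, fun x => ?_⟩
  · by_cases hq : q = p
    · simp only [hq, if_true]
      exact h
    · simp only [hq, if_false]
      exact ind_const q 1
  · by_cases hq : q = p
    · simp only [hq, if_true]
      exact hu
    · simp only [hq, if_false]
      exact ui_const zero_le_one le_rfl
  · rw [Finset.prod_eq_single_of_mem p hp]
    · simp
    · intro q _ hq
      simp [hq]

theorem fac_one (T : Finset (Fin 4)) : Fac T (fun _ : Om V => (1 : ℝ)) := by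
  refine ⟨fun _ _ => 1, fun q _ => ind_const q 1, fun q _ => ui_const zero_le_one le_rfl, fun x => ?_⟩
  simp

theorem Fac.mul {T : Finset (Fin 4)} {w w' : Om V → ℝ} (h : Fac T w) (h' : Fac T w') :
    Fac T (fun x => w x * w' x) := by
  obtain ⟨a, ha1, ha2, ha3⟩ := h
  obtain ⟨b, hb1, hb2, hb3⟩ := h'
  refine ⟨fun p x => a p x * b p x, fun p hp => (ha1 p hp).mul (hb1 p hp),
    fun p hp => (ha2 p hp).mul (hb2 p hp), fun x => ?_⟩
  show w x * w' x = ∏ p ∈ T, (a p x * b p x)
  rw [ha3, hb3, Finset.prod_mul_distrib]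

theorem Fac.prod {ι : Type} {T : Finset (Fin 4)} (s : Finset ι) {w : ι → Om V → ℝ}
    (h : ∀ i ∈ s, Fac T (w i)) : Fac T (fun x => ∏ i ∈ s, w i x) := by
  induction s using Finset.induction_on with
  | empty =>
    simp only [Finset.prod_empty]
    exact fac_one T
  | insert a s ha ih =>
    have h1 := (h a (Finset.mem_insert_self a s)).mul
      (ih fun i hi => h i (Finset.mem_insert_of_mem hi))
    simp only [Finset.prod_insert ha]
    exact h1

theorem Fac.congr {T : Finset (Fin 4)} {w w' : Om V → ℝ} (h : Fac T w) (h' : ∀ x, w x = w' x) :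
    Fac T w' := by
  obtain ⟨a, ha1, ha2, ha3⟩ := h
  exact ⟨a, ha1, ha2, fun x => (h' x).symm.trans (ha3 x)⟩

theorem Fac.ui {T : Finset (Fin 4)} {w : Om V → ℝ} (h : Fac T w) : UI w := by
  obtain ⟨a, ha1, ha2, ha3⟩ := h
  intro x
  rw [ha3]
  exact UI.prod T ha2 x

end SZ4
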