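import Pool.Agent.SZ4.Good

/-!
[AP4-S7c] The bad sets: independence of the coordinate `e`, and measure.

`pat G f τ` is the set of points whose membership pattern in `subG G f` is `τ`; for a point `x`,
`cell (subG G f) x = pat G f (G.filter (x ∈ ·))`.

`ind_bad`.  Replacing `x` by `update x e v` changes nothing: for `e ∉ f` the members of `subG G f` and
of `fam H f` are independent of the coordinate `e` (`Dep f` or `Dep (f.erase p)`), so
`cell (subG G f) x` is unchanged and `ce (fam H f) g` is `Dep f` (`dep_ce_fam`); for `i ≠ e` the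
members of `subG H {i}` do not depend on the coordinate `e`; the members of `fam G {e}ᶜ` and of
`J G H e` neither (`dep_ce`).

`bad_measure`.  `A e ∩ Bad e ⊆` union of
 (a) `{x ∈ A e | ce (fam G {e}ᶜ) (ind (A e)) x < ε4}`: measure `≤ ε4` by `low_density`;
 (b) for the (three) pairs `f ∌ e`: `⋃ τ ∈ (subG G f).powerset, {x ∈ pat G f τ | ce (fam H f) (ind (pat G f τ)) x < η2}`:
     measure `≤ 2^(card G) * η2` for each `f` by `low_density`
     (`(subG G f).card ≤ G.card`);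
 (c) for the pairs `f ∌ e`: `⋃ τ ∈ G.powerset, {x | θ^2 < ce (fam H f) (d_{f,τ}^2) x}`: by `markov_ce`
     measure `≤ av (d_{f,τ}^2) / θ^2`, total over `f` and `τ` at most `ε2 / θ^2`;
 (d) for `i ≠ e`: `small_cells`: `≤ 2^(card H) * η1`;
 (e) `markov_ce`: `≤ av (h_e^2) / θ5^2 ≤ ε3 / θ5^2`.
-/

set_option linter.unusedSectionVars false

namespace SZ4
open Finset
open scoped Classical

variable {V : Type} [Fintype V] [Nonempty V]

/-- the points with membership pattern `τ` in `subG G f` -/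
def pat (G : Finset (Set (Om V))) (f : Finset (Fin 4)) (τ : Finset (Set (Om V))) : Set (Om V) :=
  {y | ∀ B ∈ subG G f, (B ∈ τ ↔ y ∈ B)}

theorem cell_eq_pat (G : Finset (Set (Om V))) (f : Finset (Fin 4)) (x : Om V) :
    cell (subG G f) x = pat G f (G.filter (fun B => x ∈ B)) := by
  ext y
  constructor
  · intro h B hB
    have hBG : B ∈ G := (Finset.mem_filter.1 hB).1
    rw [Finset.mem_filter]
    exact ⟨fun h1 => (h B hB).1 h1.2, fun h1 => ⟨hBG, (h B hB).2 h1⟩⟩
  · intro h B hB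
    have hBG : B ∈ G := (Finset.mem_filter.1 hB).1
    have h2 := h B hB
    rw [Finset.mem_filter] at h2
    exact ⟨fun h1 => h2.1 ⟨hBG, h1⟩, fun h1 => (h2.2 h1).2⟩

theorem dep_ind_pat (G : Finset (Set (Om V))) (f : Finset (Fin 4)) (τ : Finset (Set (Om V))) :
    Dep f (ind (pat G f τ)) := by
  rw [dep_ind_iff]
  intro p hp x v
  constructor
  · intro h B hB
    rw [h B hB]
    exact (dep_ind_iff f B).1 (Finset.mem_filter.1 hB).2 p hp x v
  · intro h B hB
    rw [h B hB]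
    exact ((dep_ind_iff f B).1 (Finset.mem_filter.1 hB).2 p hp x v).symm

/-- the bad set for the coordinate `e` -/
def Bad (A : Fin 4 → Set (Om V)) (G G' H H' : Finset (Set (Om V))) (ε4 η2 η1 θ θ5 : ℝ)
    (e : Fin 4) : Set (Om V) :=
  {x | ce (fam G {e}ᶜ) (ind (A e)) x < ε4 ∨
    (∃ f ∈ pairs, e ∉ f ∧ ce (fam H f) (ind (cell (subG G f) x)) x < η2) ∨
    (∃ f ∈ pairs, e ∉ f ∧ θ ^ 2 < ce (fam H f) (fun y => (ce (fam H' f) (ind (cell (subG G f) x)) y -
      ce (fam H f) (ind (cell (subG G f) x)) y) ^ 2) x) ∨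
    (∃ i : Fin 4, i ≠ e ∧ av (ind (cell (subG H {i}) x)) < η1) ∨
    θ5 ^ 2 < ce (J G H e) (fun y => (ce (fam G' {e}ᶜ) (ind (A e)) y -
      ce (fam G {e}ᶜ) (ind (A e)) y) ^ 2) x}

theorem s7c_cell (G : Finset (Set (Om V))) (f : Finset (Fin 4)) {e : Fin 4} (he : e ∉ f) (x : Om V)
    (v : V) : cell (subG G f) (Function.update x e v) = cell (subG G f) x := by
  ext y
  constructor
  · intro h B hB
    rw [← h B hB]
    exact ((dep_ind_iff f B).1 (Finset.mem_filter.1 hB).2 e he x v).symm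
  · intro h B hB
    rw [← h B hB]
    exact (dep_ind_iff f B).1 (Finset.mem_filter.1 hB).2 e he x v

theorem s7c_depJ (G H : Finset (Set (Om V))) (e : Fin 4) :
    ∀ B ∈ J G H e, Dep ({e}ᶜ) (ind B) := by
  intro B hB
  rw [J, Finset.mem_union] at hB
  rcases hB with hB | hB
  · obtain ⟨p, hp, hd⟩ := (Finset.mem_filter.1 hB).2
    exact hd.mono (Finset.erase_subset _ _)
  · obtain ⟨i, hi, hd⟩ := (Finset.mem_filter.1 hB).2
    refine hd.mono ?_
    intro j hj
    rw [Finset.mem_singleton] at hj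
    rw [Finset.mem_compl, Finset.mem_singleton, hj]
    exact hi

theorem ind_bad {A : Fin 4 → Set (Om V)} (G G' H H' : Finset (Set (Om V)))
    (ε4 η2 η1 θ θ5 : ℝ) (e : Fin 4) : Ind e (ind (Bad A G G' H H' ε4 η2 η1 θ θ5 e)) := by
  rw [← dep_compl_iff, dep_ind_iff]
  intro p hp x v
  have hpe : p = e := by
    rw [Finset.mem_compl, Finset.mem_singleton, not_not] at hp
    exact hp
  subst hpe
  have e1 : ce (fam G {p}ᶜ) (ind (A p)) (Function.update x p v) =
      ce (fam G {p}ᶜ) (ind (A p)) x := (dep_compl_iff p _).1 (dep_ce_fam G {p}ᶜ (ind (A p))) x v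
  have e2 : ∀ f : Finset (Fin 4), p ∉ f → ∀ g : Om V → ℝ, ce (fam H f) g (Function.update x p v) =
      ce (fam H f) g x := fun f hf g => dep_ce_fam H f g p hf x v
  have e3 : ∀ g : Om V → ℝ, ce (J G H p) g (Function.update x p v) = ce (J G H p) g x :=
    fun g => (dep_compl_iff p _).1 (dep_ce (s7c_depJ G H p) g) x v
  have e4 : ∀ i : Fin 4, i ≠ p → cell (subG H {i}) (Function.update x p v) =
      cell (subG H {i}) x := fun i hi => s7c_cell H {i} (by
        rw [Finset.mem_singleton]; exact hi.symm) x v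
  unfold Bad
  simp only [Set.mem_ofPred_eq]
  rw [e1, e3]
  refine or_congr Iff.rfl (or_congr ?_ (or_congr ?_ (or_congr ?_ Iff.rfl)))
  · refine exists_congr fun f => and_congr_right fun _ => and_congr_right fun hf => ?_
    rw [s7c_cell G f hf, e2 f hf]
  · refine exists_congr fun f => and_congr_right fun _ => and_congr_right fun hf => ?_
    rw [s7c_cell G f hf, e2 f hf]
  · refine exists_congr fun i => and_congr_right fun hi => ?_
    rw [e4 i hi]

theorem s7c_card : ∀ e : Fin 4, (pairs.filter (fun f => e ∉ f)).card = 3 := by decide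

theorem bad_measure (A : Fin 4 → Set (Om V)) (G G' H H' : Finset (Set (Om V)))
    {ε4 η2 η1 θ θ5 ε2 ε3 : ℝ} (h4p : 0 < ε4) (h2p : 0 < η2) (h1p : 0 < η1) (hθ : 0 < θ)
    (hθ5 : 0 < θ5)
    (he2 : ∑ i ∈ pairs ×ˢ G.powerset, av (fun x => (ce (fam H' i.1) (ind (pat G i.1 i.2)) x -
      ce (fam H i.1) (ind (pat G i.1 i.2)) x) ^ 2) ≤ ε2)
    (he3 : ∑ e : Fin 4, av (fun x => (ce (fam G' {e}ᶜ) (ind (A e)) x -
      ce (fam G {e}ᶜ) (ind (A e)) x) ^ 2) ≤ ε3) (e : Fin 4) :
    av (ind (A e ∩ Bad A G G' H H' ε4 η2 η1 θ θ5 e)) ≤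
      ε4 + 3 * (2 ^ G.card * η2) + ε2 / θ ^ 2 + 3 * (2 ^ H.card * η1) + ε3 / θ5 ^ 2 := by
  set P : Finset (Finset (Fin 4) × Finset (Set (Om V))) :=
    (pairs.filter (fun f => e ∉ f)) ×ˢ G.powerset with hP
  set Sa : Set (Om V) := {x | x ∈ A e ∧ ce (fam G {e}ᶜ) (ind (A e)) x < ε4} with hSa
  set Sb : Set (Om V) := {x | ∃ i ∈ P, x ∈ {x | x ∈ pat G i.1 i.2 ∧
    ce (fam H i.1) (ind (pat G i.1 i.2)) x < η2}} with hSb
  set Sc : Set (Om V) := {x | ∃ i ∈ P, x ∈ {x | θ ^ 2 < ce (fam H i.1) (fun y =>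
    (ce (fam H' i.1) (ind (pat G i.1 i.2)) y - ce (fam H i.1) (ind (pat G i.1 i.2)) y) ^ 2) x}}
    with hSc
  set Sd : Set (Om V) := {x | ∃ i ∈ ({e}ᶜ : Finset (Fin 4)), x ∈ {x |
    av (ind (cell (subG H {i}) x)) < η1}} with hSd
  set Se : Set (Om V) := {x | θ5 ^ 2 < ce (J G H e) (fun y => (ce (fam G' {e}ᶜ) (ind (A e)) y -
      ce (fam G {e}ᶜ) (ind (A e)) y) ^ 2) x} with hSe
  have hsub : A e ∩ Bad A G G' H H' ε4 η2 η1 θ θ5 e ⊆ Sa ∪ (Sb ∪ (Sc ∪ (Sd ∪ Se))) := by
    rintro x ⟨hxA, hx⟩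
    rcases hx with h | ⟨f, hf, hef, h⟩ | ⟨f, hf, hef, h⟩ | ⟨i, hi, h⟩ | h
    · exact Or.inl ⟨hxA, h⟩
    · refine Or.inr (Or.inl ⟨(f, G.filter (fun B => x ∈ B)), ?_, ?_, ?_⟩)
      · rw [hP, Finset.mem_product]
        exact ⟨Finset.mem_filter.2 ⟨hf, hef⟩, Finset.mem_powerset.2 (Finset.filter_subset _ _)⟩
      · rw [← cell_eq_pat]
        exact mem_cell_self _ _
      · rw [← cell_eq_pat]
        exact h
    · refine Or.inr (Or.inr (Or.inl ⟨(f, G.filter (fun B => x ∈ B)), ?_, ?_⟩))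
      · rw [hP, Finset.mem_product]
        exact ⟨Finset.mem_filter.2 ⟨hf, hef⟩, Finset.mem_powerset.2 (Finset.filter_subset _ _)⟩
      · simp only [Set.mem_ofPred_eq]
        rw [← cell_eq_pat]
        exact h
    · refine Or.inr (Or.inr (Or.inr (Or.inl ⟨i, ?_, h⟩)))
      rw [Finset.mem_compl, Finset.mem_singleton]
      exact hi
    · exact Or.inr (Or.inr (Or.inr (Or.inr h)))
  have ha : av (ind Sa) ≤ ε4 := low_density _ _ h4p.le
  have hb : av (ind Sb) ≤ 3 * (2 ^ G.card * η2) := by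
    refine (av_ind_biUnion_le P _).trans ?_
    have h6 : ∀ i ∈ P, av (ind {x | x ∈ pat G i.1 i.2 ∧
        ce (fam H i.1) (ind (pat G i.1 i.2)) x < η2}) ≤ η2 := fun i _ => low_density _ _ h2p.le
    refine (Finset.sum_le_card_nsmul _ _ _ h6).trans (le_of_eq ?_)
    rw [hP, Finset.card_product, s7c_card, Finset.card_powerset, nsmul_eq_mul]
    push_cast
    ring
  have hc : av (ind Sc) ≤ ε2 / θ ^ 2 := by
    refine (av_ind_biUnion_le P _).trans ?_
    have h6 : ∀ i ∈ P, av (ind {x | θ ^ 2 < ce (fam H i.1) (fun y =>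
        (ce (fam H' i.1) (ind (pat G i.1 i.2)) y - ce (fam H i.1) (ind (pat G i.1 i.2)) y) ^ 2) x}) ≤
        av (fun y => (ce (fam H' i.1) (ind (pat G i.1 i.2)) y -
          ce (fam H i.1) (ind (pat G i.1 i.2)) y) ^ 2) / θ ^ 2 := fun i _ =>
      markov_ce _ (fun x => sq_nonneg _) (by positivity)
    refine (Finset.sum_le_sum h6).trans ?_
    rw [← Finset.sum_div]
    refine div_le_div_of_nonneg_right ?_ (by positivity)
    refine le_trans ?_ he2
    refine Finset.sum_le_sum_of_subset_of_nonneg ?_ ?_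
    · exact Finset.product_subset_product (Finset.filter_subset _ _) (Finset.Subset.refl _)
    · intro i _ _
      exact av_nonneg fun x => sq_nonneg _
  have hd : av (ind Sd) ≤ 3 * (2 ^ H.card * η1) := by
    refine (av_ind_biUnion_le ({e}ᶜ : Finset (Fin 4)) _).trans ?_
    have h6 : ∀ i ∈ ({e}ᶜ : Finset (Fin 4)), av (ind {x |
        av (ind (cell (subG H {i}) x)) < η1}) ≤ 2 ^ H.card * η1 := by
      intro i _
      refine (small_cells (subG H {i}) h1p.le).trans ?_
      refine mul_le_mul_of_nonneg_right ?_ h1p.le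
      exact pow_le_pow_right₀ (by norm_num) (Finset.card_le_card (Finset.filter_subset _ _))
    refine (Finset.sum_le_card_nsmul _ _ _ h6).trans (le_of_eq ?_)
    have h7 : ({e}ᶜ : Finset (Fin 4)).card = 3 := by
      rw [Finset.card_compl]; simp
    rw [h7, nsmul_eq_mul]
    norm_num
  have he : av (ind Se) ≤ ε3 / θ5 ^ 2 := by
    refine (markov_ce (J G H e) (fun x => sq_nonneg _) (by positivity)).trans ?_
    refine div_le_div_of_nonneg_right ?_ (by positivity)
    refine le_trans ?_ he3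
    exact Finset.single_le_sum (f := fun e : Fin 4 => av (fun x =>
      (ce (fam G' {e}ᶜ) (ind (A e)) x - ce (fam G {e}ᶜ) (ind (A e)) x) ^ 2))
      (fun i _ => av_nonneg fun x => sq_nonneg _) (Finset.mem_univ e)
  have h1 := av_ind_mono hsub
  have h2 := av_ind_union_le Sa (Sb ∪ (Sc ∪ (Sd ∪ Se)))
  have h3 := av_ind_union_le Sb (Sc ∪ (Sd ∪ Se))
  have h4 := av_ind_union_le Sc (Sd ∪ Se)
  have h5 := av_ind_union_le Sd Se
  linarith

end SZ4
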