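import Pool.Agent.SZ4.Av

/-!
[AP4-S1b] toolkit for cells and conditional expectations.
All proofs are short; `SZ4/Av.lean` (row S1a) may be used as it stands.
Keep the statements exactly as they are.
-/

set_option linter.unusedSectionVars false

namespace SZ4
open Finset
open scoped Classical

variable {V : Type} [Fintype V] [Nonempty V]

theorem mem_cell_self (G : Finset (Set (Om V))) (x : Om V) : x ∈ cell G x := fun _ _ => Iff.rfl

theorem mem_cell_comm {G : Finset (Set (Om V))} {x y : Om V} : y ∈ cell G x ↔ x ∈ cell G y := ⟨fun h B hB => (h B hB).symm, fun h B hB => (h B hB).symm⟩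

theorem cell_eq {G : Finset (Set (Om V))} {x y : Om V} (h : y ∈ cell G x) : cell G y = cell G x := by
  ext w
  exact ⟨fun hw B hB => (h B hB).trans (hw B hB), fun hw B hB => (h B hB).symm.trans (hw B hB)⟩

theorem cell_anti {G G' : Finset (Set (Om V))} (h : G ⊆ G') (x : Om V) : cell G' x ⊆ cell G x := fun _ hy B hB => hy B (h hB)

theorem cell_union (G G' : Finset (Set (Om V))) (x : Om V) :
    cell (G ∪ G') x = cell G x ∩ cell G' x := by
  ext y
  constructor
  · intro h
    exact ⟨fun B hB => h B (Finset.mem_union_left _ hB), fun B hB => h B (Finset.mem_union_right _ hB)⟩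
  · rintro ⟨h1, h2⟩ B hB
    rcases Finset.mem_union.1 hB with h | h
    · exact h1 B h
    · exact h2 B h

/-- `fam G s = ⋃ p ∈ s, subG G (s.erase p)`, hence its cells are intersections. -/
theorem ind_cell_fam (G : Finset (Set (Om V))) (s : Finset (Fin 4)) (x y : Om V) :
    ind (cell (fam G s) x) y = ∏ p ∈ s, ind (cell (subG G (s.erase p)) x) y := by
  have key : y ∈ cell (fam G s) x ↔ ∀ p ∈ s, y ∈ cell (subG G (s.erase p)) x := by
    constructor
    · intro h p hp B hB
      have hB' := Finset.mem_filter.1 hB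
      exact h B (Finset.mem_filter.2 ⟨hB'.1, p, hp, hB'.2⟩)
    · intro h B hB
      obtain ⟨h1, p, hp, h2⟩ := Finset.mem_filter.1 hB
      exact h p hp B (Finset.mem_filter.2 ⟨h1, h2⟩)
  unfold ind
  by_cases h : y ∈ cell (fam G s) x
  · rw [if_pos h]
    exact (Finset.prod_eq_one fun p hp => if_pos (key.1 h p hp)).symm
  · rw [if_neg h]
    have h' : ¬ ∀ p ∈ s, y ∈ cell (subG G (s.erase p)) x := fun h'' => h (key.2 h'')
    push Not at h'
    obtain ⟨p, hp, h1⟩ := h'
    exact (Finset.prod_eq_zero hp (if_neg h1)).symm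

private theorem ce_sum_pos (G : Finset (Set (Om V))) (x : Om V) :
    0 < ∑ y : Om V, ind (cell G x) y := by
  have h1 : ind (cell G x) x = 1 := if_pos (mem_cell_self G x)
  have h2 : ind (cell G x) x ≤ ∑ y : Om V, ind (cell G x) y :=
    Finset.single_le_sum (f := fun y => ind (cell G x) y) (fun y _ => (ui_ind _ y).1)
      (Finset.mem_univ x)
  rw [h1] at h2
  linarith

theorem av_ind_cell_pos (G : Finset (Set (Om V))) (x : Om V) : 0 < av (ind (cell G x)) := by
  unfold av
  exact div_pos (ce_sum_pos G x) card_pos'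

/-- the cell of `x` only depends on the membership of `x` in the members of `G`. -/
theorem dep_ind_cell {G : Finset (Set (Om V))} {t : Finset (Fin 4)}
    (h : ∀ B ∈ G, Dep t (ind B)) (x : Om V) : Dep t (ind (cell G x)) := by
  rw [dep_ind_iff]
  intro p hp y v
  have h1 : ∀ B ∈ G, (Function.update y p v ∈ B ↔ y ∈ B) := fun B hB =>
    (dep_ind_iff t B).1 (h B hB) p hp y v
  constructor
  · intro h2 B hB
    exact (h2 B hB).trans (h1 B hB)
  · intro h2 B hB
    exact (h2 B hB).trans (h1 B hB).symm

theorem fam_mono {G G' : Finset (Set (Om V))} (h : G ⊆ G') (s : Finset (Fin 4)) :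
    fam G s ⊆ fam G' s := Finset.filter_subset_filter _ h

theorem subG_mono {G G' : Finset (Set (Om V))} (h : G ⊆ G') (s : Finset (Fin 4)) :
    subG G s ⊆ subG G' s := Finset.filter_subset_filter _ h

/-! functions constant on cells -/

theorem cc_const (G : Finset (Set (Om V))) (c : ℝ) : CC G (fun _ => c) := fun _ _ _ => rfl

theorem cc_ind {G : Finset (Set (Om V))} {B : Set (Om V)} (h : B ∈ G) : CC G (ind B) := by
  intro x y hy
  have h1 := hy B h
  unfold ind
  by_cases h2 : x ∈ B
  · rw [if_pos h2, if_pos (h1.1 h2)]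
  · rw [if_neg h2, if_neg fun h3 => h2 (h1.2 h3)]

theorem cc_ind_cell (G : Finset (Set (Om V))) (x : Om V) : CC G (ind (cell G x)) := by
  intro a b hb
  unfold ind
  have h1 : a ∈ cell G x ↔ b ∈ cell G x := by
    constructor
    · intro h B hB
      exact (h B hB).trans (hb B hB)
    · intro h B hB
      exact (h B hB).trans (hb B hB).symm
  by_cases h2 : a ∈ cell G x
  · rw [if_pos h2, if_pos (h1.1 h2)]
  · rw [if_neg h2, if_neg fun h3 => h2 (h1.2 h3)]

theorem CC.mono {G G' : Finset (Set (Om V))} (h : G ⊆ G') {f : Om V → ℝ} (hf : CC G f) : CC G' f := fun x y hy => hf x y (cell_anti h x hy)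

theorem CC.mul {G : Finset (Set (Om V))} {f g : Om V → ℝ} (hf : CC G f) (hg : CC G g) :
    CC G (fun x => f x * g x) := by
  intro x y hy
  show f y * g y = f x * g x
  rw [hf x y hy, hg x y hy]

theorem CC.prod {ι : Type} {G : Finset (Set (Om V))} (s : Finset ι) {f : ι → Om V → ℝ}
    (h : ∀ i ∈ s, CC G (f i)) : CC G (fun x => ∏ i ∈ s, f i x) := by
  intro x y hy
  exact Finset.prod_congr rfl fun i hi => h i hi x y hy

/-! conditional expectation -/

theorem cc_ce (G : Finset (Set (Om V))) (g : Om V → ℝ) : CC G (ce G g) := by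
  intro x y hy
  unfold ce
  rw [cell_eq hy]

theorem ce_eq_self {G : Finset (Set (Om V))} {g : Om V → ℝ} (h : CC G g) (x : Om V) :
    ce G g x = g x := by
  unfold ce
  have h1 : ∑ y : Om V, ind (cell G x) y * g y = (∑ y : Om V, ind (cell G x) y) * g x := by
    rw [Finset.sum_mul]
    refine Finset.sum_congr rfl fun y _ => ?_
    unfold ind
    by_cases hy : y ∈ cell G x
    · rw [h x y hy]
    · rw [if_neg hy, zero_mul, zero_mul]
  rw [h1, mul_div_cancel_left₀ _ (ce_sum_pos G x).ne']

/-- sum over the cells. -/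
theorem av_ce_mul {G : Finset (Set (Om V))} (g : Om V → ℝ) {h : Om V → ℝ} (hh : CC G h) :
    av (fun x => g x * h x) = av (fun x => ce G g x * h x) := by
  unfold av
  congr 1
  have h1 : ∀ x : Om V, ce G g x * h x =
      ∑ y : Om V, (ind (cell G y) x * (g y * h y)) / (∑ w : Om V, ind (cell G y) w) := by
    intro x
    unfold ce
    rw [Finset.sum_div, Finset.sum_mul]
    refine Finset.sum_congr rfl fun y _ => ?_
    by_cases hy : y ∈ cell G x
    · have hx : x ∈ cell G y := mem_cell_comm.1 hy
      rw [cell_eq hy, hh x y hy]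
      have e1 : ind (cell G x) x = 1 := if_pos (mem_cell_self G x)
      have e2 : ind (cell G x) y = 1 := if_pos hy
      rw [e1, e2]
      ring
    · have hx : x ∉ cell G y := fun h' => hy (mem_cell_comm.1 h')
      have e1 : ind (cell G y) x = 0 := if_neg hx
      have e2 : ind (cell G x) y = 0 := if_neg hy
      rw [e1, e2]
      simp
  rw [Finset.sum_congr rfl fun x _ => h1 x, Finset.sum_comm]
  refine Finset.sum_congr rfl fun y _ => ?_
  rw [← Finset.sum_div, ← Finset.sum_mul, mul_div_cancel_left₀ _ (ce_sum_pos G y).ne']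

theorem av_ce (G : Finset (Set (Om V))) (g : Om V → ℝ) : av (ce G g) = av g := by
  have h := av_ce_mul g (cc_const G 1)
  simp only [mul_one] at h
  exact h.symm

/-- on one cell -/
theorem ce_mul_av_cell (G : Finset (Set (Om V))) (g : Om V → ℝ) (x : Om V) :
    av (fun y => g y * ind (cell G x) y) = ce G g x * av (ind (cell G x)) := by
  unfold av ce
  have h1 := ce_sum_pos G x
  have h2 := card_pos' (V := V)
  have h3 : ∑ y : Om V, g y * ind (cell G x) y = ∑ y : Om V, ind (cell G x) y * g y :=
    Finset.sum_congr rfl fun y _ => mul_comm _ _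
  rw [h3]
  have h4 := h1.ne'
  have h5 := h2.ne'
  rw [div_mul_div_comm, mul_comm _ (∑ y : Om V, ind (cell G x) y), mul_div_mul_left _ _ h4]

theorem ce_mono {G : Finset (Set (Om V))} {f g : Om V → ℝ} (h : ∀ x, f x ≤ g x) (x : Om V) :
    ce G f x ≤ ce G g x := by
  unfold ce
  refine div_le_div_of_nonneg_right (Finset.sum_le_sum fun y _ => ?_) (ce_sum_pos G x).le
  exact mul_le_mul_of_nonneg_left (h y) (ui_ind _ y).1

theorem ce_nonneg {G : Finset (Set (Om V))} {g : Om V → ℝ} (h : ∀ x, 0 ≤ g x) (x : Om V) :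
    0 ≤ ce G g x := by
  unfold ce
  exact div_nonneg (Finset.sum_nonneg fun y _ => mul_nonneg (ui_ind _ y).1 (h y)) (ce_sum_pos G x).le

theorem UI.ce {G : Finset (Set (Om V))} {g : Om V → ℝ} (h : UI g) : UI (SZ4.ce G g) := by
  intro x
  refine ⟨ce_nonneg (fun y => (h y).1) x, ?_⟩
  have h1 := ce_mono (G := G) (fun y => (h y).2) x
  rwa [ce_eq_self (cc_const G 1)] at h1

/-- Jensen / Cauchy-Schwarz on a cell. -/
theorem sq_ce_le (G : Finset (Set (Om V))) (g : Om V → ℝ) (x : Om V) :
    (ce G g x) ^ 2 ≤ ce G (fun y => g y ^ 2) x := by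
  unfold ce
  have h1 := ce_sum_pos G x
  have h0 : ∀ y : Om V, ind (cell G x) y * ind (cell G x) y = ind (cell G x) y := by
    intro y
    unfold ind
    split_ifs <;> simp
  have h2 := Finset.sum_mul_sq_le_sq_mul_sq (Finset.univ : Finset (Om V))
    (fun y => ind (cell G x) y) (fun y => ind (cell G x) y * g y)
  have e1 : ∑ y : Om V, ind (cell G x) y * (ind (cell G x) y * g y) =
      ∑ y : Om V, ind (cell G x) y * g y := by
    refine Finset.sum_congr rfl fun y _ => ?_
    rw [← mul_assoc, h0]
  have e2 : ∑ y : Om V, ind (cell G x) y ^ 2 = ∑ y : Om V, ind (cell G x) y := by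
    refine Finset.sum_congr rfl fun y _ => ?_
    rw [sq, h0]
  have e3 : ∑ y : Om V, (ind (cell G x) y * g y) ^ 2 = ∑ y : Om V, ind (cell G x) y * g y ^ 2 := by
    refine Finset.sum_congr rfl fun y _ => ?_
    rw [mul_pow, sq (ind (cell G x) y), h0]
  rw [e1, e2, e3] at h2
  rw [div_pow, div_le_div_iff₀ (by positivity) h1]
  calc _ ≤ ((∑ y : Om V, ind (cell G x) y) * ∑ y : Om V, ind (cell G x) y * g y ^ 2) *
        ∑ y : Om V, ind (cell G x) y := mul_le_mul_of_nonneg_right h2 h1.le
    _ = _ := by ring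

/-- `ce G g` only depends on the cell. -/
theorem dep_ce {G : Finset (Set (Om V))} {t : Finset (Fin 4)}
    (h : ∀ B ∈ G, Dep t (ind B)) (g : Om V → ℝ) : Dep t (ce G g) := by
  intro p hp x v
  refine cc_ce G g x _ ?_
  intro B hB
  exact ((dep_ind_iff t B).1 (h B hB) p hp x v).symm

theorem dep_ce_fam (G : Finset (Set (Om V))) (s : Finset (Fin 4)) (g : Om V → ℝ) :
    Dep s (ce (fam G s) g) := by
  refine dep_ce (fun B hB => ?_) g
  obtain ⟨_, p, _, h2⟩ := Finset.mem_filter.1 hB
  exact h2.mono (Finset.erase_subset p s)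

/-- Pythagoras.  With `G ⊆ G'` the function `ce G g` is constant on the cells of `G` and of `G'`, so
`av (ce G' g * ce G g) = av (g * ce G g) = av (ce G g ^ 2)`. -/
theorem pythagoras {G G' : Finset (Set (Om V))} (h : G ⊆ G') (g : Om V → ℝ) :
    av (fun x => (ce G' g x - ce G g x) ^ 2) =
      av (fun x => ce G' g x ^ 2) - av (fun x => ce G g x ^ 2) := by
  have h1 : av (fun x => ce G' g x * ce G g x) = av (fun x => ce G g x ^ 2) := by
    rw [← av_ce_mul g ((cc_ce G g).mono h), av_ce_mul g (cc_ce G g)]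
    exact av_congr fun x => (sq _).symm
  have h2 : av (fun x => (ce G' g x - ce G g x) ^ 2) =
      av (fun x => (ce G' g x ^ 2 - 2 * (ce G' g x * ce G g x)) + ce G g x ^ 2) :=
    av_congr fun x => by ring
  rw [h2, av_add, av_sub, av_const_mul, h1]
  ring

theorem energy_mono {G G' : Finset (Set (Om V))} (h : G ⊆ G') (g : Om V → ℝ) :
    av (fun x => ce G g x ^ 2) ≤ av (fun x => ce G' g x ^ 2) := by
  have h1 := pythagoras h g
  have h2 : 0 ≤ av (fun x => (ce G' g x - ce G g x) ^ 2) := av_nonneg fun x => sq_nonneg _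
  linarith

/-! three estimates used for the cleaning step -/

/-- The set is a union of cells, there are at most `2 ^ G.card` of them (a cell is determined by
`G.filter (x ∈ ·)`), each one with measure `< η`. -/
theorem small_cells (G : Finset (Set (Om V))) {η : ℝ} (hη : 0 ≤ η) :
    av (ind {x | av (ind (cell G x)) < η}) ≤ 2 ^ G.card * η := by
  have h1 : av (ind {x : Om V | av (ind (cell G x)) < η}) ≤
      av (ind {x : Om V | ∃ S ∈ G.powerset,
        x ∈ {x : Om V | G.filter (fun B => x ∈ B) = S ∧ av (ind (cell G x)) < η}}) := by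
    refine av_ind_mono fun x hx => ?_
    exact ⟨G.filter (fun B => x ∈ B), Finset.mem_powerset.2 (Finset.filter_subset _ _), rfl, hx⟩
  refine h1.trans ((av_ind_biUnion_le _ _).trans ?_)
  have h2 : ∀ S ∈ G.powerset,
      av (ind {x : Om V | G.filter (fun B => x ∈ B) = S ∧ av (ind (cell G x)) < η}) ≤ η := by
    intro S _
    by_cases hne : ∃ x₀ : Om V, G.filter (fun B => x₀ ∈ B) = S ∧ av (ind (cell G x₀)) < η
    · obtain ⟨x₀, h3, h4⟩ := hne
      refine (av_ind_mono ?_).trans h4.le
      rintro x ⟨h5, _⟩ B hB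
      have h6 : B ∈ G.filter (fun B => x₀ ∈ B) ↔ B ∈ G.filter (fun B => x ∈ B) := by
        rw [h3, h5]
      simp only [Finset.mem_filter, hB, true_and] at h6
      exact h6
    · have h3 : ∀ x : Om V,
          ind {x : Om V | G.filter (fun B => x ∈ B) = S ∧ av (ind (cell G x)) < η} x = 0 := by
        intro x
        unfold ind
        rw [if_neg]
        exact fun h => hne ⟨x, h⟩
      rw [av_congr h3, av_const]
      exact hη
  refine (Finset.sum_le_sum h2).trans ?_
  rw [Finset.sum_const, nsmul_eq_mul, Finset.card_powerset]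
  push_cast
  exact le_rfl

/-- `h = ind {x | ce G (ind B) x < η}` is constant on cells, so
`av (ind B * h) = av (ce G (ind B) * h) ≤ η`. -/
theorem low_density (G : Finset (Set (Om V))) (B : Set (Om V)) {η : ℝ} (hη : 0 ≤ η) :
    av (ind {x | x ∈ B ∧ ce G (ind B) x < η}) ≤ η := by
  have hcc : CC G (ind {x : Om V | ce G (ind B) x < η}) := by
    intro x y hy
    have h1 : ce G (ind B) y = ce G (ind B) x := cc_ce G _ x y hy
    show (if ce G (ind B) y < η then (1 : ℝ) else 0) = (if ce G (ind B) x < η then (1 : ℝ) else 0)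
    rw [h1]
  have h1 : ∀ x : Om V, ind {x : Om V | x ∈ B ∧ ce G (ind B) x < η} x =
      ind B x * ind {x : Om V | ce G (ind B) x < η} x := fun x => ind_inter B _ x
  rw [av_congr h1, av_ce_mul (ind B) hcc]
  calc av (fun x => ce G (ind B) x * ind {x : Om V | ce G (ind B) x < η} x) ≤
      av (fun _ : Om V => η) := by
        refine av_mono fun x => ?_
        by_cases hx : ce G (ind B) x < η
        · have e : ind {x : Om V | ce G (ind B) x < η} x = 1 := if_pos hx
          rw [e, mul_one]
          exact hx.le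
        · have e : ind {x : Om V | ce G (ind B) x < η} x = 0 := if_neg hx
          rw [e, mul_zero]
          exact hη
    _ = η := av_const η

/-- Markov: `t * ind {t < ce G g} ≤ ce G g`, and `av (ce G g) = av g`. -/
theorem markov_ce (G : Finset (Set (Om V))) {g : Om V → ℝ} (hg : ∀ x, 0 ≤ g x) {t : ℝ}
    (ht : 0 < t) : av (ind {x | t < ce G g x}) ≤ av g / t := by
  rw [le_div_iff₀ ht, ← av_ce G g, ← av_mul_const]
  refine av_mono fun x => ?_
  by_cases hx : t < ce G g x
  · have e : ind {x : Om V | t < ce G g x} x = 1 := if_pos hx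
    rw [e, one_mul]
    exact hx.le
  · have e : ind {x : Om V | t < ce G g x} x = 0 := if_neg hx
    rw [e, zero_mul]
    exact ce_nonneg hg x

end SZ4
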