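import Pool.Agent.SZ4.GC

/-!
[AP4-S5] the main counting estimate.

Put `W x = (∏ f ∈ pairs, u f x) * ∏ i, c i x ∈ [0,1]`, `E = θ * ∏ av c + δ`.  As `W ≤ 1`,
`av (∏ A) ≥ av ((∏ A) W)`.

(1) `|av ((∏ A) W) - av ((∏ c') W)| ≤ 4 δ3`: replace `A e` by `c' e` for `e = 0,1,2,3` in turn.
Each difference is `av ((A e - c' e) * w)` where `w` is a product of `W` and of functions
`A e'` or `c' e'`, `e' ≠ e`.  `w` is `Fac {e}ᶜ`: `A e'`, `c' e'` are `Ind e'`, `e' ∈ {e}ᶜ`; `u f` for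
a pair `f`: `{e}ᶜ` has three elements, so there is `p ∈ {e}ᶜ` with `p ∉ f`, and `Dep f` gives
`Ind p`; `c i` is `Ind p` for any `p ∈ {e}ᶜ`, `p ≠ i`.  Use `Fac.mul`, `Fac.prod`, `fac_of_ind`.

(2) For numbers in `[0,1]`: `∏ c' e ≥ ∏ α e - ∑ |c' e - α e|`.  So
`av ((∏ c') W) ≥ (∏ α) av W - ∑ e, av (|c' e - α e| W)`.

(3) `gc` with `H = 1`, `F = pairs`, `F' = ∅`: `|av W - ∏ β ∏ av c| ≤ 6 E`.

(4) Fix `e`, `H = |c' e - α e|` (`UI`, `Ind e`).  `gc` with `F = pairs.filter (e ∈ ·)`,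
`F' = pairs.filter (e ∉ ·)` (3 pairs each): `av (H W) ≤ (∏ f ∈ F, β f) * av (H ∏_{F'} u ∏ c) + 3 E`;
by `loc` this is `≤ (∏ f ∈ F, β f) * θ5 * av (∏_{F'} u ∏ c) + 3 E`; by `gc` with `H = 1`,
`F := F'`, `F' := ∅`: `av (∏_{F'} u ∏ c) ≤ ∏_{F'} β ∏ av c + 3 E`.  As `β, θ5 ≤ 1`:
`av (H W) ≤ θ5 ∏_{pairs} β ∏ av c + 6 E`.

Together: `av (∏ A) ≥ (∏ α)(∏ β ∏ av c - 6 E) - 4 (θ5 ∏ β ∏ av c + 6 E) - 4 δ3`, and `∏ α ≤ 1`.
-/

set_option linter.unusedSectionVars false

namespace SZ4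
open Finset
open scoped Classical

variable {V : Type} [Fintype V] [Nonempty V]

namespace CountAux

theorem prod_diff (s : Finset (Fin 4)) (a b : Fin 4 → ℝ) (ha : ∀ e, 0 ≤ a e ∧ a e ≤ 1)
    (hb : ∀ e, 0 ≤ b e ∧ b e ≤ 1) :
    ∏ e ∈ s, b e - ∑ e ∈ s, |a e - b e| ≤ ∏ e ∈ s, a e := by
  induction s using Finset.induction_on with
  | empty => simp
  | insert i s hi ih =>
    rw [Finset.prod_insert hi, Finset.prod_insert hi, Finset.sum_insert hi]
    have h1 : 0 ≤ ∏ e ∈ s, a e := Finset.prod_nonneg fun e _ => (ha e).1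
    have h2 : ∏ e ∈ s, a e ≤ 1 := Finset.prod_le_one (fun e _ => (ha e).1) fun e _ => (ha e).2
    have h3 : 0 ≤ ∏ e ∈ s, b e := Finset.prod_nonneg fun e _ => (hb e).1
    have h4 : ∏ e ∈ s, b e ≤ 1 := Finset.prod_le_one (fun e _ => (hb e).1) fun e _ => (hb e).2
    have h5 : 0 ≤ ∑ e ∈ s, |a e - b e| := Finset.sum_nonneg fun e _ => abs_nonneg _
    have h6 : b i - a i ≤ |a i - b i| := by
      rw [abs_sub_comm]; exact le_abs_self _
    have h7 : 0 ≤ |a i - b i| := abs_nonneg _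
    have ha1 := (ha i).1
    have ha2 := (ha i).2
    have hb1 := (hb i).1
    -- b_i B - a_i A = (b_i - a_i) B + a_i (B - A)
    have h8 : b i * ∏ e ∈ s, b e - a i * ∏ e ∈ s, a e =
        (b i - a i) * ∏ e ∈ s, b e + a i * (∏ e ∈ s, b e - ∏ e ∈ s, a e) := by ring
    have h9 : (b i - a i) * ∏ e ∈ s, b e ≤ |a i - b i| := by
      calc (b i - a i) * ∏ e ∈ s, b e ≤ |a i - b i| * ∏ e ∈ s, b e :=
            mul_le_mul_of_nonneg_right h6 h3
        _ ≤ |a i - b i| * 1 := mul_le_mul_of_nonneg_left h4 h7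
        _ = _ := mul_one _
    have h10 : a i * (∏ e ∈ s, b e - ∏ e ∈ s, a e) ≤ ∑ e ∈ s, |a e - b e| := by
      have : ∏ e ∈ s, b e - ∏ e ∈ s, a e ≤ ∑ e ∈ s, |a e - b e| := by linarith
      calc a i * (∏ e ∈ s, b e - ∏ e ∈ s, a e) ≤ a i * ∑ e ∈ s, |a e - b e| :=
            mul_le_mul_of_nonneg_left this ha1
        _ ≤ 1 * ∑ e ∈ s, |a e - b e| := mul_le_mul_of_nonneg_right ha2 h5
        _ = _ := one_mul _
    linarith

theorem pair_out : ∀ f ∈ pairs, ∀ e : Fin 4, ∃ p : Fin 4, p ≠ e ∧ p ∉ f := by decide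

theorem pair_out1 : ∀ i e : Fin 4, ∃ p : Fin 4, p ≠ e ∧ p ≠ i := by decide

theorem card_in : ∀ e : Fin 4, (pairs.filter (fun f => e ∈ f)).card ≤ 3 := by decide

theorem card_out : ∀ e : Fin 4, (pairs.filter (fun f => e ∉ f)).card ≤ 3 := by decide

theorem card_pairs : pairs.card = 6 := by decide

theorem fac_W {u : Finset (Fin 4) → Om V → ℝ} {β : Finset (Fin 4) → ℝ} {c : Fin 4 → Om V → ℝ}
    {θ δ : ℝ} (hS : PS u β c θ δ) (e : Fin 4) :
    Fac ({e}ᶜ : Finset (Fin 4)) (fun x => (∏ f ∈ pairs, u f x) * ∏ i, c i x) := by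
  refine Fac.mul (w := fun x => ∏ f ∈ pairs, u f x) (w' := fun x => ∏ i, c i x) ?_ ?_
  · refine Fac.prod pairs (w := u) ?_
    intro f hf
    obtain ⟨p, hpe, hpf⟩ := pair_out f hf e
    exact fac_of_ind (p := p) (by simp [hpe]) (hS.uD f hf p hpf) (hS.uU f hf)
  · refine Fac.prod univ (w := c) ?_
    intro i _
    obtain ⟨p, hpe, hpi⟩ := pair_out1 i e
    exact fac_of_ind (p := p) (by simp [hpe]) (hS.cD i p (by simp [hpi])) (hS.cU i)

theorem ui_W {u : Finset (Fin 4) → Om V → ℝ} {β : Finset (Fin 4) → ℝ} {c : Fin 4 → Om V → ℝ}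
    {θ δ : ℝ} (hS : PS u β c θ δ) :
    UI (fun x => (∏ f ∈ pairs, u f x) * ∏ i, c i x) := (fac_W hS 0).ui

/-- the telescoping step -/
theorem tele {u : Finset (Fin 4) → Om V → ℝ} {β : Finset (Fin 4) → ℝ} {c : Fin 4 → Om V → ℝ}
    {θ δ : ℝ} (hS : PS u β c θ δ) {A c' : Fin 4 → Om V → ℝ} {δ3 : ℝ}
    (hA : ∀ e, UI (A e)) (hAi : ∀ e, Ind e (A e)) (hc : ∀ e, UI (c' e)) (hci : ∀ e, Ind e (c' e))
    (hun : ∀ e, Unif {e}ᶜ δ3 (fun x => A e x - c' e x)) (T : Finset (Fin 4)) :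
    |av (fun x => (∏ e, (if e ∈ T then A e x else c' e x)) *
        ((∏ f ∈ pairs, u f x) * ∏ i, c i x)) -
      av (fun x => (∏ e, c' e x) * ((∏ f ∈ pairs, u f x) * ∏ i, c i x))| ≤ T.card * δ3 := by
  induction T using Finset.induction_on with
  | empty => simp
  | insert i T hi ih =>
    have key : |av (fun x => (∏ e, (if e ∈ insert i T then A e x else c' e x)) *
        ((∏ f ∈ pairs, u f x) * ∏ i, c i x)) -
        av (fun x => (∏ e, (if e ∈ T then A e x else c' e x)) *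
        ((∏ f ∈ pairs, u f x) * ∏ i, c i x))| ≤ δ3 := by
      rw [← av_sub]
      have hw : Fac ({i}ᶜ : Finset (Fin 4)) (fun x =>
          (∏ e ∈ univ.erase i, (if e ∈ T then A e x else c' e x)) *
          ((∏ f ∈ pairs, u f x) * ∏ i, c i x)) := by
        refine Fac.mul (w := fun x => ∏ e ∈ univ.erase i, (if e ∈ T then A e x else c' e x))
          (w' := fun x => (∏ f ∈ pairs, u f x) * ∏ i, c i x) ?_ (fac_W hS i)
        refine Fac.prod (univ.erase i) (w := fun e x => if e ∈ T then A e x else c' e x) ?_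
        intro e he
        have hei : e ≠ i := (Finset.mem_erase.1 he).1
        by_cases heT : e ∈ T
        · have : (fun x : Om V => if e ∈ T then A e x else c' e x) = A e := by
            funext x; simp [heT]
          rw [this]
          exact fac_of_ind (p := e) (by simp [hei]) (hAi e) (hA e)
        · have : (fun x : Om V => if e ∈ T then A e x else c' e x) = c' e := by
            funext x; simp [heT]
          rw [this]
          exact fac_of_ind (p := e) (by simp [hei]) (hci e) (hc e)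
      have h1 := hun i _ hw
      refine le_trans (le_of_eq ?_) h1
      congr 1
      refine av_congr fun x => ?_
      have e1 : ∏ e, (if e ∈ insert i T then A e x else c' e x) =
          A i x * ∏ e ∈ univ.erase i, (if e ∈ T then A e x else c' e x) := by
        rw [← Finset.mul_prod_erase univ _ (Finset.mem_univ i)]
        congr 1
        · simp
        · refine Finset.prod_congr rfl fun e he => ?_
          have hei : e ≠ i := (Finset.mem_erase.1 he).1
          simp [Finset.mem_insert, hei]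
      have e2 : ∏ e, (if e ∈ T then A e x else c' e x) =
          c' i x * ∏ e ∈ univ.erase i, (if e ∈ T then A e x else c' e x) := by
        rw [← Finset.mul_prod_erase univ _ (Finset.mem_univ i)]
        congr 1
        simp [hi]
      rw [e1, e2]
      ring
    rw [Finset.card_insert_of_notMem hi]
    push_cast
    have := abs_sub_le (av (fun x => (∏ e, (if e ∈ insert i T then A e x else c' e x)) *
        ((∏ f ∈ pairs, u f x) * ∏ i, c i x)))
        (av (fun x => (∏ e, (if e ∈ T then A e x else c' e x)) *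
        ((∏ f ∈ pairs, u f x) * ∏ i, c i x)))
        (av (fun x => (∏ e, c' e x) * ((∏ f ∈ pairs, u f x) * ∏ i, c i x)))
    linarith

end CountAux

open CountAux

theorem count_main {u : Finset (Fin 4) → Om V → ℝ} {β : Finset (Fin 4) → ℝ} {c : Fin 4 → Om V → ℝ}
    {θ δ : ℝ} (hS : PS u β c θ δ) {A c' : Fin 4 → Om V → ℝ} {α : Fin 4 → ℝ} {θ5 δ3 : ℝ}
    (hA : ∀ e, UI (A e)) (hAi : ∀ e, Ind e (A e)) (hc : ∀ e, UI (c' e)) (hci : ∀ e, Ind e (c' e))
    (hα : ∀ e, 0 ≤ α e ∧ α e ≤ 1) (h5 : 0 ≤ θ5 ∧ θ5 ≤ 1) (h3 : 0 ≤ δ3)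
    (hun : ∀ e, Unif {e}ᶜ δ3 (fun x => A e x - c' e x))
    (loc : ∀ e, av (fun x => |c' e x - α e| * (∏ f ∈ pairs.filter (fun f => e ∉ f), u f x) *
        ∏ i, c i x) ≤
      θ5 * av (fun x => (∏ f ∈ pairs.filter (fun f => e ∉ f), u f x) * ∏ i, c i x)) :
    ((∏ e, α e) - 4 * θ5) * (∏ f ∈ pairs, β f) * (∏ i, av (c i)) -
      30 * (θ * ∏ i, av (c i) + δ) - 4 * δ3 ≤ av (fun x => ∏ e, A e x) := by
  set D : ℝ := ∏ i, av (c i) with hD
  set E : ℝ := θ * D + δ with hE
  set B : ℝ := ∏ f ∈ pairs, β f with hB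
  have hD0 : 0 ≤ D := Finset.prod_nonneg fun i _ => (UI.av_mem (hS.cU i)).1
  have hE0 : 0 ≤ E := add_nonneg (mul_nonneg hS.θ0 hD0) hS.δ0
  have hCav : av (fun x => ∏ i, c i x) = D := av_prod_single univ fun i _ => hS.cD i
  have hW := ui_W hS
  have hPA : UI (fun x => ∏ e, A e x) := UI.prod univ (f := A) fun e _ => hA e
  -- step 0
  have s0 : av (fun x => (∏ e, A e x) * ((∏ f ∈ pairs, u f x) * ∏ i, c i x)) ≤
      av (fun x => ∏ e, A e x) := by
    refine av_mono fun x => ?_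
    calc (∏ e, A e x) * ((∏ f ∈ pairs, u f x) * ∏ i, c i x) ≤ (∏ e, A e x) * 1 :=
          mul_le_mul_of_nonneg_left (hW x).2 (hPA x).1
      _ = _ := mul_one _
  -- step 1
  have s1 : av (fun x => (∏ e, c' e x) * ((∏ f ∈ pairs, u f x) * ∏ i, c i x)) - 4 * δ3 ≤
      av (fun x => (∏ e, A e x) * ((∏ f ∈ pairs, u f x) * ∏ i, c i x)) := by
    have h := tele hS hA hAi hc hci hun univ
    simp only [Finset.mem_univ, if_true, Finset.card_univ, Fintype.card_fin] at h
    have := (abs_le.1 h).1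
    push_cast at this
    linarith
  -- step 2
  have s2 : (∏ e, α e) * av (fun x => (∏ f ∈ pairs, u f x) * ∏ i, c i x) -
      ∑ e, av (fun x => |c' e x - α e| * ((∏ f ∈ pairs, u f x) * ∏ i, c i x)) ≤
      av (fun x => (∏ e, c' e x) * ((∏ f ∈ pairs, u f x) * ∏ i, c i x)) := by
    rw [← av_const_mul, ← av_sum univ
      (fun e x => |c' e x - α e| * ((∏ f ∈ pairs, u f x) * ∏ i, c i x)), ← av_sub]
    refine av_mono fun x => ?_
    have h := prod_diff univ (fun e => c' e x) α (fun e => hc e x) hα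
    rw [← Finset.sum_mul, ← sub_mul]
    exact mul_le_mul_of_nonneg_right h (hW x).1
  -- step 3
  have s3 : B * D - 6 * E ≤ av (fun x => (∏ f ∈ pairs, u f x) * ∏ i, c i x) := by
    have h := gc hS pairs ∅ (Finset.Subset.refl _) (by simp) (by simp)
      (H := fun _ => 1) (ui_const zero_le_one le_rfl) (fun f hf => by
        have : f.Nonempty := by
          rw [← Finset.card_pos, (Finset.mem_powersetCard.1 hf).2]; norm_num
        obtain ⟨p, hp⟩ := this
        exact ⟨p, hp, ind_const p 1⟩)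
    simp only [Finset.prod_empty, one_mul, mul_one, card_pairs] at h
    rw [hCav] at h
    have := (abs_le.1 h).1
    push_cast at this
    linarith
  -- step 4
  have s4 : ∀ e, av (fun x => |c' e x - α e| * ((∏ f ∈ pairs, u f x) * ∏ i, c i x)) ≤
      θ5 * (B * D) + 6 * E := by
    intro e
    have hHU : UI (fun x => |c' e x - α e|) := fun x =>
      ⟨abs_nonneg _, abs_le.2 ⟨by linarith [(hc e x).1, (hα e).2], by
        linarith [(hc e x).2, (hα e).1]⟩⟩
    have hHI : Ind e (fun x => |c' e x - α e|) := by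
      intro x v
      have := hci e x v
      simp only [this]
    have hsub1 : pairs.filter (fun f => e ∈ f) ⊆ pairs := Finset.filter_subset _ _
    have hsub2 : pairs.filter (fun f => e ∉ f) ⊆ pairs := Finset.filter_subset _ _
    have hdis : Disjoint (pairs.filter (fun f => e ∈ f)) (pairs.filter (fun f => e ∉ f)) :=
      Finset.disjoint_filter_filter_not _ _ _
    have g1 := gc hS _ _ hsub1 hsub2 hdis hHU (fun f hf => ⟨e, (Finset.mem_filter.1 hf).2, hHI⟩)
    have g2 := gc hS (pairs.filter (fun f => e ∉ f)) ∅ hsub2 (by simp) (by simp)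
      (H := fun _ => 1) (ui_const zero_le_one le_rfl) (fun f hf => by
        have : f.Nonempty := by
          rw [← Finset.card_pos, (Finset.mem_powersetCard.1 (hsub2 hf)).2]; norm_num
        obtain ⟨p, hp⟩ := this
        exact ⟨p, hp, ind_const p 1⟩)
    simp only [Finset.prod_empty, one_mul, mul_one] at g2
    rw [hCav] at g2
    have c1 : ((pairs.filter (fun f => e ∈ f)).card : ℝ) ≤ 3 := by
      exact_mod_cast card_in e
    have c2 : ((pairs.filter (fun f => e ∉ f)).card : ℝ) ≤ 3 := by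
      exact_mod_cast card_out e
    have hb1 : ∀ f ∈ pairs.filter (fun f => e ∈ f), 0 ≤ β f ∧ β f ≤ 1 :=
      fun f hf => hS.βU f (hsub1 hf)
    have hb2 : ∀ f ∈ pairs.filter (fun f => e ∉ f), 0 ≤ β f ∧ β f ≤ 1 :=
      fun f hf => hS.βU f (hsub2 hf)
    set B1 : ℝ := ∏ f ∈ pairs.filter (fun f => e ∈ f), β f with hB1
    set B2 : ℝ := ∏ f ∈ pairs.filter (fun f => e ∉ f), β f with hB2
    have hBB : B1 * B2 = B := Finset.prod_filter_mul_prod_filter_not _ _ _
    have hB10 : 0 ≤ B1 := Finset.prod_nonneg fun f hf => (hb1 f hf).1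
    have hB11 : B1 ≤ 1 := Finset.prod_le_one (fun f hf => (hb1 f hf).1) fun f hf => (hb1 f hf).2
    have g1' := (abs_le.1 g1).2
    have g2' := (abs_le.1 g2).2
    have l := loc e
    have eqW : av (fun x => |c' e x - α e| * ((∏ f ∈ pairs, u f x) * ∏ i, c i x)) =
        av (fun x => |c' e x - α e| * (∏ f ∈ pairs.filter (fun f => e ∈ f), u f x) *
          (∏ f ∈ pairs.filter (fun f => e ∉ f), u f x) * ∏ i, c i x) := by
      refine av_congr fun x => ?_
      rw [← Finset.prod_filter_mul_prod_filter_not pairs (fun f => e ∈ f) (fun f => u f x)]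
      ring
    rw [eqW]
    set X1 := av (fun x => |c' e x - α e| * (∏ f ∈ pairs.filter (fun f => e ∈ f), u f x) *
          (∏ f ∈ pairs.filter (fun f => e ∉ f), u f x) * ∏ i, c i x) with hX1
    set X2 := av (fun x => |c' e x - α e| * (∏ f ∈ pairs.filter (fun f => e ∉ f), u f x) *
        ∏ i, c i x) with hX2
    set X3 := av (fun x => (∏ f ∈ pairs.filter (fun f => e ∉ f), u f x) * ∏ i, c i x) with hX3
    have k1 : X1 ≤ B1 * X2 + 3 * E := by
      have := mul_le_mul_of_nonneg_right c1 hE0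
      linarith
    have k2 : X3 ≤ B2 * D + 3 * E := by
      have := mul_le_mul_of_nonneg_right c2 hE0
      linarith
    have k3 : X2 ≤ θ5 * (B2 * D + 3 * E) :=
      l.trans (mul_le_mul_of_nonneg_left k2 h5.1)
    have k4 : B1 * X2 ≤ B1 * (θ5 * (B2 * D + 3 * E)) := mul_le_mul_of_nonneg_left k3 hB10
    have k5 : B1 * (θ5 * (B2 * D + 3 * E)) = θ5 * (B * D) + (B1 * θ5) * (3 * E) := by
      rw [← hBB]; ring
    have k6 : (B1 * θ5) * (3 * E) ≤ 3 * E := by
      have : B1 * θ5 ≤ 1 := mul_le_one₀ hB11 h5.1 h5.2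
      calc (B1 * θ5) * (3 * E) ≤ 1 * (3 * E) :=
            mul_le_mul_of_nonneg_right this (by linarith)
        _ = _ := one_mul _
    linarith
  have s4' : ∑ e, av (fun x => |c' e x - α e| * ((∏ f ∈ pairs, u f x) * ∏ i, c i x)) ≤
      4 * (θ5 * (B * D) + 6 * E) := by
    calc _ ≤ ∑ _e : Fin 4, (θ5 * (B * D) + 6 * E) := Finset.sum_le_sum fun e _ => s4 e
      _ = _ := by simp [mul_add]
  have hα0 : 0 ≤ ∏ e, α e := Finset.prod_nonneg fun e _ => (hα e).1
  have hα1 : ∏ e, α e ≤ 1 := Finset.prod_le_one (fun e _ => (hα e).1) fun e _ => (hα e).2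
  have s5 : (∏ e, α e) * (B * D - 6 * E) ≤
      (∏ e, α e) * av (fun x => (∏ f ∈ pairs, u f x) * ∏ i, c i x) :=
    mul_le_mul_of_nonneg_left s3 hα0
  have s6 : (∏ e, α e) * (6 * E) ≤ 6 * E := by
    calc (∏ e, α e) * (6 * E) ≤ 1 * (6 * E) := mul_le_mul_of_nonneg_right hα1 (by linarith)
      _ = _ := one_mul _
  have s7 : (∏ e, α e) * (B * D - 6 * E) = (∏ e, α e) * B * D - (∏ e, α e) * (6 * E) := by ring
  have s8 : ((∏ e, α e) - 4 * θ5) * B * D = (∏ e, α e) * B * D - 4 * (θ5 * (B * D)) := by ring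
  linarith

end SZ4
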