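import Mathlib

/-!
[AP4] Szemeredi's theorem for 4-term progressions: definitions.

Everything lives on `Om V = Fin 4 → V` for a finite nonempty type `V`.
-/

set_option linter.unusedSectionVars false

namespace SZ4
open Finset
open scoped Classical

/-- the product space `V ^ 4` -/
abbrev Om (V : Type) := Fin 4 → V

variable {V : Type} [Fintype V] [Nonempty V]

/-- average over `V ^ 4` -/
noncomputable def av (f : Om V → ℝ) : ℝ := (∑ x : Om V, f x) / (Fintype.card (Om V) : ℝ)

/-- indicator function -/
noncomputable def ind (B : Set (Om V)) : Om V → ℝ := fun x => if x ∈ B then 1 else 0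

/-- `f` does not depend on the coordinate `p` -/
def Ind (p : Fin 4) (f : Om V → ℝ) : Prop := ∀ (x : Om V) (v : V), f (Function.update x p v) = f x

/-- `f` depends only on the coordinates in `s` -/
def Dep (s : Finset (Fin 4)) (f : Om V → ℝ) : Prop := ∀ p, p ∉ s → Ind p f

/-- values in `[0,1]` -/
def UI (f : Om V → ℝ) : Prop := ∀ x, 0 ≤ f x ∧ f x ≤ 1

/-- the cell of `x` in the partition generated by the family `G` -/
def cell (G : Finset (Set (Om V))) (x : Om V) : Set (Om V) := {y | ∀ B ∈ G, (x ∈ B ↔ y ∈ B)}

/-- conditional expectation of `g` with respect to the partition generated by `G` -/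
noncomputable def ce (G : Finset (Set (Om V))) (g : Om V → ℝ) (x : Om V) : ℝ :=
  (∑ y : Om V, ind (cell G x) y * g y) / (∑ y : Om V, ind (cell G x) y)

/-- members of `G` that depend only on the coordinates in `t` -/
noncomputable def subG (G : Finset (Set (Om V))) (t : Finset (Fin 4)) : Finset (Set (Om V)) :=
  G.filter (fun B => Dep t (ind B))

/-- members of `G` that depend only on the coordinates in some `s.erase p`, `p ∈ s` -/
noncomputable def fam (G : Finset (Set (Om V))) (s : Finset (Fin 4)) : Finset (Set (Om V)) :=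
  G.filter (fun B => ∃ p ∈ s, Dep (s.erase p) (ind B))

/-- `h` is constant on the cells of `G` -/
def CC (G : Finset (Set (Om V))) (h : Om V → ℝ) : Prop := ∀ x y, y ∈ cell G x → h y = h x

/-- `w` is a product of `[0,1]`-functions `a p` (`p ∈ T`), the `p`-th one not depending on `x p` -/
def Fac (T : Finset (Fin 4)) (w : Om V → ℝ) : Prop :=
  ∃ a : Fin 4 → Om V → ℝ, (∀ p ∈ T, Ind p (a p)) ∧ (∀ p ∈ T, UI (a p)) ∧
    ∀ x, w x = ∏ p ∈ T, a p x

/-- `r` is `δ`-uniform against all test functions `Fac T` -/
def Unif (T : Finset (Fin 4)) (δ : ℝ) (r : Om V → ℝ) : Prop :=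
  ∀ w : Om V → ℝ, Fac T w → |av (fun x => r x * w x)| ≤ δ

/-- the six pairs -/
def pairs : Finset (Finset (Fin 4)) := (univ : Finset (Fin 4)).powersetCard 2

end SZ4
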