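import Pool.Agent.SZ4.Ce

/-!
[AP4-S4] the counting lemma for pairs, with an extra factor `H`.

`PS u β c θ δ`: for each pair `f` the function `u f` is, on the support of `∏ i ∈ f, c i`, the sum of
the constant `β f`, a function `d` small in `L¹` and a function `r` which is `δ`-uniform.

Proof of `gc_step`.  Let `C x = ∏ i, c i x = (∏ i ∈ f, c i x) * ∏ i ∈ fᶜ, c i x`.  Pointwise
`u f * C = (β f + d + r) * C`.  So the difference is `av (d K C) + av (r K C)`.
* `|d K C| ≤ |d| * ∏ i, c i` and, as `|d| * ∏ i ∈ f, c i` is `Dep f`, by `av_mul_prod_single`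
  (`s = f`, `t = fᶜ`) its average is `av (|d| ∏ i∈f c i) * ∏ i ∈ fᶜ, av (c i) ≤ θ * ∏ i, av (c i)`.
* `x ↦ K x * C x` is `Fac f`: `K` by hypothesis; each `c i` is `Ind p` for some `p ∈ f` (`f` has two
  elements, one of them is `≠ i`, and `Dep {i} (c i)` gives `Ind p (c i)` for `p ≠ i`); use
  `Fac.mul`, `Fac.prod`, `fac_of_ind`.

Proof of `gc`.  Induction on `F` (replace one pair `f ∈ F` at a time):
`K = H * ∏ f' ∈ (F \ {f}) ∪ F', u f'` is `Fac f`: `H` by hypothesis, and `u f'` with `f' ≠ f` two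
pairs: there is `p ∈ f \ f'`, `Dep f' (u f')` gives `Ind p (u f')`.  All `β` are in `[0,1]`, so the
errors add up to at most `F.card * (θ * ∏ av c + δ)`.
-/

set_option linter.unusedSectionVars false

namespace SZ4
open Finset
open scoped Classical

variable {V : Type} [Fintype V] [Nonempty V]

structure PS (u : Finset (Fin 4) → Om V → ℝ) (β : Finset (Fin 4) → ℝ) (c : Fin 4 → Om V → ℝ)
    (θ δ : ℝ) : Prop where
  uU : ∀ f ∈ pairs, UI (u f)
  uD : ∀ f ∈ pairs, Dep f (u f)
  βU : ∀ f ∈ pairs, 0 ≤ β f ∧ β f ≤ 1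
  cU : ∀ i, UI (c i)
  cD : ∀ i, Dep {i} (c i)
  θ0 : 0 ≤ θ
  δ0 : 0 ≤ δ
  dec : ∀ f ∈ pairs, ∃ d r : Om V → ℝ,
    (∀ x, u f x * ∏ i ∈ f, c i x = (β f + d x + r x) * ∏ i ∈ f, c i x) ∧ Dep f d ∧
    av (fun x => |d x| * ∏ i ∈ f, c i x) ≤ θ * ∏ i ∈ f, av (c i) ∧ Unif f δ r

private theorem s4_single {f : Finset (Fin 4)} (hf : f ∈ pairs) {c : Fin 4 → Om V → ℝ}
    (cU : ∀ i, UI (c i)) (cD : ∀ i, Dep {i} (c i)) (i : Fin 4) : Fac f (c i) := by
  have hcard : f.card = 2 := (Finset.mem_powersetCard.1 hf).2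
  have : ∃ p ∈ f, p ≠ i := by
    by_contra hcon
    push Not at hcon
    have : f ⊆ {i} := fun p hp => Finset.mem_singleton.2 (hcon p hp)
    have := Finset.card_le_card this
    rw [hcard, Finset.card_singleton] at this
    omega
  obtain ⟨p, hp, hpi⟩ := this
  exact fac_of_ind hp (cD i p (by simpa using hpi)) (cU i)

private theorem s4_pair {f f' : Finset (Fin 4)} (hf : f ∈ pairs) (hf' : f' ∈ pairs) (hne : f' ≠ f)
    {w : Om V → ℝ} (hw : Dep f' w) (hu : UI w) : Fac f w := by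
  have hcard : f.card = 2 := (Finset.mem_powersetCard.1 hf).2
  have hcard' : f'.card = 2 := (Finset.mem_powersetCard.1 hf').2
  have : ∃ p ∈ f, p ∉ f' := by
    by_contra hcon
    push Not at hcon
    exact hne (Finset.eq_of_subset_of_card_le hcon (by omega)).symm
  obtain ⟨p, hp, hpf⟩ := this
  exact fac_of_ind hp (hw p hpf) hu

theorem gc_step {u : Finset (Fin 4) → Om V → ℝ} {β : Finset (Fin 4) → ℝ} {c : Fin 4 → Om V → ℝ}
    {θ δ : ℝ} (hS : PS u β c θ δ) {f : Finset (Fin 4)} (hf : f ∈ pairs) {K : Om V → ℝ}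
    (hK : Fac f K) :
    |av (fun x => u f x * K x * ∏ i, c i x) - β f * av (fun x => K x * ∏ i, c i x)| ≤
      θ * ∏ i, av (c i) + δ := by
  obtain ⟨d, r, hdec, hdD, hdav, hr⟩ := hS.dec f hf
  have hsplit : ∀ x : Om V, ∏ i, c i x = (∏ i ∈ f, c i x) * ∏ i ∈ fᶜ, c i x := fun x =>
    (Finset.prod_mul_prod_compl f _).symm
  have hpt : ∀ x, u f x * K x * ∏ i, c i x =
      β f * (K x * ∏ i, c i x) + (d x * (K x * ∏ i, c i x) + r x * (K x * ∏ i, c i x)) := by
    intro x
    have h1 : u f x * K x * ∏ i, c i x = (u f x * ∏ i ∈ f, c i x) * K x * ∏ i ∈ fᶜ, c i x := by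
      rw [hsplit x]; ring
    rw [h1, hdec x, hsplit x]
    ring
  rw [av_congr hpt, av_add, av_add, av_const_mul]
  have hKU := hK.ui
  have hCU : UI (fun x : Om V => ∏ i, c i x) := UI.prod _ fun i _ => hS.cU i
  have e1 : |av (fun x => d x * (K x * ∏ i, c i x))| ≤ θ * ∏ i, av (c i) := by
    calc |av (fun x => d x * (K x * ∏ i, c i x))|
        ≤ av (fun x => |d x * (K x * ∏ i, c i x)|) := abs_av_le _
      _ ≤ av (fun x => (|d x| * ∏ i ∈ f, c i x) * ∏ i ∈ fᶜ, c i x) := by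
          refine av_mono fun x => ?_
          rw [mul_assoc, ← hsplit x, abs_mul, abs_mul]
          have k0 := (hKU x).1
          have k1 := (hKU x).2
          have c0 : 0 ≤ ∏ i, c i x := (hCU x).1
          rw [abs_of_nonneg k0, abs_of_nonneg c0]
          refine mul_le_mul_of_nonneg_left ?_ (abs_nonneg _)
          exact mul_le_of_le_one_left c0 k1
      _ = av (fun x => |d x| * ∏ i ∈ f, c i x) * ∏ i ∈ fᶜ, av (c i) := by
          refine av_mul_prod_single (s := f) fᶜ disjoint_compl_right ?_ fun i _ => hS.cD i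
          refine (hdD.abs).mul (Dep.prod f fun i hi => (hS.cD i).mono ?_)
          simpa using hi
      _ ≤ (θ * ∏ i ∈ f, av (c i)) * ∏ i ∈ fᶜ, av (c i) := by
          refine mul_le_mul_of_nonneg_right hdav ?_
          exact Finset.prod_nonneg fun i _ => (hS.cU i).av_mem.1
      _ = θ * ∏ i, av (c i) := by
          rw [mul_assoc, Finset.prod_mul_prod_compl]
  have e2 : |av (fun x => r x * (K x * ∏ i, c i x))| ≤ δ := by
    refine hr _ (hK.mul (Fac.prod _ fun i _ => s4_single hf hS.cU hS.cD i))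
  calc _ = |av (fun x => d x * (K x * ∏ i, c i x)) + av (fun x => r x * (K x * ∏ i, c i x))| := by
        congr 1; ring
    _ ≤ _ := (abs_add_le _ _).trans (add_le_add e1 e2)

theorem gc {u : Finset (Fin 4) → Om V → ℝ} {β : Finset (Fin 4) → ℝ} {c : Fin 4 → Om V → ℝ}
    {θ δ : ℝ} (hS : PS u β c θ δ) (F F' : Finset (Finset (Fin 4))) (hF : F ⊆ pairs)
    (hF' : F' ⊆ pairs) (hd : Disjoint F F') {H : Om V → ℝ} (hU : UI H)
    (hH : ∀ f ∈ F, ∃ p ∈ f, Ind p H) :
    |av (fun x => H x * (∏ f ∈ F, u f x) * (∏ f ∈ F', u f x) * ∏ i, c i x) -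
      (∏ f ∈ F, β f) * av (fun x => H x * (∏ f ∈ F', u f x) * ∏ i, c i x)| ≤
      F.card * (θ * ∏ i, av (c i) + δ) := by
  have hE : 0 ≤ θ * ∏ i, av (c i) + δ := by
    have := Finset.prod_nonneg (s := Finset.univ) fun i _ => (hS.cU i).av_mem.1
    have h1 := hS.θ0
    have h2 := hS.δ0
    positivity
  induction F using Finset.induction_on with
  | empty => simp
  | @insert f F hfF ih =>
    have hfp : f ∈ pairs := hF (Finset.mem_insert_self _ _)
    have ih' := ih (fun a ha => hF (Finset.mem_insert_of_mem ha))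
      (Finset.disjoint_of_subset_left (Finset.subset_insert _ _) hd)
      (fun a ha => hH a (Finset.mem_insert_of_mem ha))
    obtain ⟨p, hp, hpH⟩ := hH f (Finset.mem_insert_self _ _)
    have hK : Fac f (fun x => H x * (∏ f ∈ F, u f x) * (∏ f ∈ F', u f x)) := by
      refine ((fac_of_ind hp hpH hU).mul (Fac.prod _ fun a ha => ?_)).mul (Fac.prod _ fun a ha => ?_)
      · have hap : a ∈ pairs := hF (Finset.mem_insert_of_mem ha)
        exact s4_pair hfp hap (fun h => hfF (h ▸ ha)) (hS.uD a hap) (hS.uU a hap)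
      · have hap : a ∈ pairs := hF' ha
        refine s4_pair hfp hap (fun h => ?_) (hS.uD a hap) (hS.uU a hap)
        exact (Finset.disjoint_left.1 hd (Finset.mem_insert_self f F)) (h ▸ ha)
    have hstep := gc_step hS hfp hK
    have e1 : av (fun x => H x * (∏ f ∈ insert f F, u f x) * (∏ f ∈ F', u f x) * ∏ i, c i x) =
        av (fun x => u f x * (H x * (∏ f ∈ F, u f x) * (∏ f ∈ F', u f x)) * ∏ i, c i x) := by
      refine av_congr fun x => ?_
      rw [Finset.prod_insert hfF]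
      ring
    rw [e1, Finset.prod_insert hfF, Finset.card_insert_of_notMem hfF]
    obtain ⟨b0, b1⟩ := hS.βU f hfp
    set A := av (fun x => u f x * (H x * (∏ f ∈ F, u f x) * (∏ f ∈ F', u f x)) * ∏ i, c i x) with hA
    set B := av (fun x => H x * (∏ f ∈ F, u f x) * (∏ f ∈ F', u f x) * ∏ i, c i x) with hB
    set D := av (fun x => H x * (∏ f ∈ F', u f x) * ∏ i, c i x) with hD
    set E := θ * ∏ i, av (c i) + δ with hEd
    have h3 : A - β f * (∏ f ∈ F, β f) * D = (A - β f * B) + β f * (B - (∏ f ∈ F, β f) * D) := by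
      ring
    rw [h3]
    refine (abs_add_le _ _).trans ?_
    rw [abs_mul, abs_of_nonneg b0]
    have h4 : β f * |B - (∏ f ∈ F, β f) * D| ≤ 1 * ((F.card : ℝ) * E) :=
      mul_le_mul b1 ih' (abs_nonneg _) zero_le_one
    push_cast
    linarith

end SZ4
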