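import Pool.Agent.SZ4.Count

/-!
[AP4-S7b] A good point of the cleaned sets produces many simplices.

Notation: `u f = ind (cell (subG G f) x0)`, `c i = ind (cell (subG H {i}) x0)`,
`β f = ce (fam H f) (u f) x0`, `α e = ce (fam G {e}ᶜ) (ind (A e)) x0`,
`c' e = ce (fam G' {e}ᶜ) (ind (A e))`.

`PS u β c θ δ2`: `u f` is `UI` and `Dep f` (`dep_ind_cell`: all members of `subG G f` are `Dep f`),
`c i` is `Dep {i}`, `β f ∈ [0,1]` by `UI.ce`.  For `dec` take
`d = ce (fam H' f) (u f) - ce (fam H f) (u f)` and `r = u f - ce (fam H' f) (u f)`.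
 * `∏ i ∈ f, c i = ind (cell (fam H f) x0)` by `ind_cell_fam` (for `f = {i, j}`, `f.erase i = {j}`), and
   on this cell `ce (fam H f) (u f)` is constant `= β f` (`cc_ce`).  This gives the pointwise identity.
 * `Dep f d` by `dep_ce_fam` and `Dep.sub`.
 * `av (|d| * ind cell) = ce (fam H f) |d| x0 * av (ind cell)` (`ce_mul_av_cell`),
   `(ce |d| x0)^2 ≤ ce (|d|^2) x0 ≤ θ^2` (`sq_ce_le`, `h4`), so it is `≤ θ * av (ind cell)`, and
   `av (ind cell) = av (∏ i ∈ f, c i) = ∏ i ∈ f, av (c i)` (`av_prod_single`).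
 * `Unif f δ2 r` is `unif2`.

`loc` of `count_main`: `(∏ f ∈ pairs.filter (e ∉ ·), u f) * ∏ i ∈ {e}ᶜ, c i = ind (cell (J G H e) x0)`
(`cell_union`; `fam G {e}ᶜ` has as cells the intersections of the cells of
`subG G (({e}ᶜ).erase p)`, `p ≠ e`, and `({e}ᶜ).erase p` runs through the pairs not containing `e`;
it may be easiest to prove this identity by unfolding to memberships, e.g. by
`fin_cases e` at the very end only).  On this cell `ce (fam G {e}ᶜ) (ind (A e)) = α e` (`cell_anti`,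
`cc_ce`), so `|c' e - α e| = |h|` with `h = ce (fam G' ..) .. - ce (fam G ..) ..`;
`av (|h| ind cell) = ce J |h| x0 * av (ind cell) ≤ θ5 * av (ind cell)` as before from `h5`.
Finally the extra factor `c e`: everything else is `Ind e`, so `av_mul_of_ind` multiplies both sides
by `av (c e) ≥ 0`.

Then `count_main` with `γ = ∏ i, av (c i) ∈ [η1^4, 1]`; `∏ α ≥ ε4^4`, `∏ β ≥ η2^6`
(`pairs.card = 6`), and `(∏ α - 4 θ5) ∏ β γ ≥ (ε4^4 - 4 θ5) η2^6 γ` as `4 θ5 ≤ ε4^4`.
-/

set_option linter.unusedSectionVars false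

namespace SZ4
open Finset
open scoped Classical

variable {V : Type} [Fintype V] [Nonempty V]

/-- the joint family: pair sets of `G` and point sets of `H`, for the coordinates `≠ e` -/
noncomputable def J (G H : Finset (Set (Om V))) (e : Fin 4) : Finset (Set (Om V)) :=
  fam G {e}ᶜ ∪ H.filter (fun B => ∃ i : Fin 4, i ≠ e ∧ Dep {i} (ind B))

theorem s7b_ind_pos {B : Set (Om V)} {x : Om V} (h : x ∈ B) : ind B x = 1 := by
  unfold ind
  rw [if_pos h]

theorem s7b_ind_neg {B : Set (Om V)} {x : Om V} (h : x ∉ B) : ind B x = 0 := by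
  unfold ind
  rw [if_neg h]

theorem s7b_prod_ind {ι : Type} (s : Finset ι) (B : ι → Set (Om V)) (x : Om V) :
    ∏ i ∈ s, ind (B i) x = if (∀ i ∈ s, x ∈ B i) then 1 else 0 := by
  induction s using Finset.induction_on with
  | empty => simp
  | insert a s ha ih =>
    rw [Finset.prod_insert ha, ih]
    unfold ind
    by_cases h1 : x ∈ B a
    · simp [h1]
    · simp [h1]

theorem s7b_pair (H : Finset (Set (Om V))) (x0 x : Om V) {f : Finset (Fin 4)} (hf : f ∈ pairs) :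
    ∏ i ∈ f, ind (cell (subG H {i}) x0) x = ind (cell (fam H f) x0) x := by
  rw [ind_cell_fam]
  have hf2 : f.card = 2 := (Finset.mem_powersetCard.1 hf).2
  obtain ⟨i, j, hij, rfl⟩ := Finset.card_eq_two.1 hf2
  rw [Finset.prod_pair hij, Finset.prod_pair hij]
  have e1 : ({i, j} : Finset (Fin 4)).erase i = {j} := by
    rw [Finset.erase_insert]
    simpa using hij
  have e2 : ({i, j} : Finset (Fin 4)).erase j = {i} := by
    rw [Finset.pair_comm, Finset.erase_insert]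
    simpa using hij.symm
  rw [e1, e2, mul_comm]

theorem s7b_comb : ∀ e : Fin 4, (pairs.filter (fun f => e ∉ f) =
    (({e}ᶜ : Finset (Fin 4))).image (fun p => ({e}ᶜ : Finset (Fin 4)).erase p)) ∧
    ∀ p ∈ ({e}ᶜ : Finset (Fin 4)), ∀ q ∈ ({e}ᶜ : Finset (Fin 4)),
      ({e}ᶜ : Finset (Fin 4)).erase p = ({e}ᶜ : Finset (Fin 4)).erase q → p = q := by
  decide

theorem s7b_cellG (G : Finset (Set (Om V))) (e : Fin 4) (x0 x : Om V) :
    ∏ f ∈ pairs.filter (fun f => e ∉ f), ind (cell (subG G f) x0) x =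
      ind (cell (fam G {e}ᶜ) x0) x := by
  rw [ind_cell_fam, (s7b_comb e).1]
  rw [Finset.prod_image]
  intro p hp q hq h
  exact (s7b_comb e).2 p hp q hq h

theorem s7b_cellH (H : Finset (Set (Om V))) (e : Fin 4) (x0 x : Om V) :
    ∏ i ∈ ({e}ᶜ : Finset (Fin 4)), ind (cell (subG H {i}) x0) x =
      ind (cell (H.filter (fun B => ∃ i : Fin 4, i ≠ e ∧ Dep {i} (ind B))) x0) x := by
  rw [s7b_prod_ind]
  have : (∀ i ∈ ({e}ᶜ : Finset (Fin 4)), x ∈ cell (subG H {i}) x0) ↔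
      x ∈ cell (H.filter (fun B => ∃ i : Fin 4, i ≠ e ∧ Dep {i} (ind B))) x0 := by
    constructor
    · intro h B hB
      rw [Finset.mem_filter] at hB
      obtain ⟨hBH, i, hi, hd⟩ := hB
      exact h i (by simpa using hi) B (Finset.mem_filter.2 ⟨hBH, hd⟩)
    · intro h i hi B hB
      have hB' : B ∈ H.filter (fun B => Dep {i} (ind B)) := hB
      rw [Finset.mem_filter] at hB'
      exact h B (Finset.mem_filter.2 ⟨hB'.1, i, by simpa using hi, hB'.2⟩)
  by_cases h : x ∈ cell (H.filter (fun B => ∃ i : Fin 4, i ≠ e ∧ Dep {i} (ind B))) x0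
  · rw [s7b_ind_pos h, if_pos (this.2 h)]
  · rw [s7b_ind_neg h, if_neg (fun h' => h (this.1 h'))]

theorem s7b_cellJ (G H : Finset (Set (Om V))) (e : Fin 4) (x0 x : Om V) :
    (∏ f ∈ pairs.filter (fun f => e ∉ f), ind (cell (subG G f) x0) x) *
      ∏ i ∈ ({e}ᶜ : Finset (Fin 4)), ind (cell (subG H {i}) x0) x =
      ind (cell (J G H e) x0) x := by
  rw [s7b_cellG, s7b_cellH, J, cell_union, ind_inter]

theorem s7b_ce_abs {G : Finset (Set (Om V))} {g : Om V → ℝ} {x0 : Om V} {θ : ℝ} (hθ : 0 ≤ θ)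
    (h : ce G (fun y => g y ^ 2) x0 ≤ θ ^ 2) : ce G (fun y => |g y|) x0 ≤ θ := by
  have h1 := sq_ce_le G (fun y => |g y|) x0
  have h2 : (fun y => (|g y|) ^ 2) = fun y => g y ^ 2 := by
    funext y
    rw [sq_abs]
  simp only [h2] at h1
  exact (abs_le.1 (abs_le_of_sq_le_sq (h1.trans h) hθ)).2

theorem good_point {A : Fin 4 → Set (Om V)} (hA : ∀ e, Ind e (ind (A e)))
    {G G' H H' : Finset (Set (Om V))} (hG : G ⊆ G') (hH : H ⊆ H')
    {ε4 η2 η1 θ θ5 δ2 δ3 : ℝ} (h4p : 0 < ε4) (h2p : 0 < η2) (h1p : 0 < η1) (hθ : 0 ≤ θ)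
    (hθ5 : 0 ≤ θ5) (hθ5' : θ5 ≤ 1) (h45 : 4 * θ5 ≤ ε4 ^ 4) (hδ2 : 0 ≤ δ2) (hδ3 : 0 ≤ δ3)
    (unif3 : ∀ e, Unif {e}ᶜ δ3 (fun x => ind (A e) x - ce (fam G' {e}ᶜ) (ind (A e)) x))
    (x0 : Om V)
    (unif2 : ∀ f ∈ pairs, Unif f δ2
      (fun x => ind (cell (subG G f) x0) x - ce (fam H' f) (ind (cell (subG G f) x0)) x))
    (h1 : ∀ e, ε4 ≤ ce (fam G {e}ᶜ) (ind (A e)) x0)
    (h2 : ∀ f ∈ pairs, η2 ≤ ce (fam H f) (ind (cell (subG G f) x0)) x0)
    (h3 : ∀ i : Fin 4, η1 ≤ av (ind (cell (subG H {i}) x0)))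
    (h4 : ∀ f ∈ pairs, ce (fam H f) (fun y => (ce (fam H' f) (ind (cell (subG G f) x0)) y -
      ce (fam H f) (ind (cell (subG G f) x0)) y) ^ 2) x0 ≤ θ ^ 2)
    (h5 : ∀ e, ce (J G H e) (fun y => (ce (fam G' {e}ᶜ) (ind (A e)) y -
      ce (fam G {e}ᶜ) (ind (A e)) y) ^ 2) x0 ≤ θ5 ^ 2) :
    ∃ γ : ℝ, η1 ^ 4 ≤ γ ∧ γ ≤ 1 ∧
      (ε4 ^ 4 - 4 * θ5) * η2 ^ 6 * γ - 30 * (θ * γ + δ2) - 4 * δ3 ≤
        av (fun x => ∏ e, ind (A e) x) := by
  set u : Finset (Fin 4) → Om V → ℝ := fun f => ind (cell (subG G f) x0) with hu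
  set c : Fin 4 → Om V → ℝ := fun i => ind (cell (subG H {i}) x0) with hc
  set β : Finset (Fin 4) → ℝ := fun f => ce (fam H f) (u f) x0 with hβ
  set α : Fin 4 → ℝ := fun e => ce (fam G {e}ᶜ) (ind (A e)) x0 with hα
  set c' : Fin 4 → Om V → ℝ := fun e => ce (fam G' {e}ᶜ) (ind (A e)) with hc'
  have huD : ∀ f, Dep f (u f) := fun f =>
    dep_ind_cell (fun B hB => (Finset.mem_filter.1 hB).2) x0
  have hcD : ∀ i, Dep {i} (c i) := fun i =>
    dep_ind_cell (fun B hB => (Finset.mem_filter.1 hB).2) x0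
  have hPS : PS u β c θ δ2 := by
    refine ⟨fun f _ => ui_ind _, fun f _ => huD f, fun f _ => (ui_ind _).ce x0, fun i => ui_ind _,
      hcD, hθ, hδ2, ?_⟩
    intro f hf
    refine ⟨fun x => ce (fam H' f) (u f) x - ce (fam H f) (u f) x,
      fun x => u f x - ce (fam H' f) (u f) x, ?_, ?_, ?_, unif2 f hf⟩
    · intro x
      have h6 := s7b_pair H x0 x hf
      simp only [hc]
      rw [h6]
      by_cases hx : x ∈ cell (fam H f) x0
      · have h7 : ce (fam H f) (u f) x = β f := cc_ce (fam H f) (u f) x0 x hx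
        rw [h7]
        ring
      · have h7 : ind (cell (fam H f) x0) x = 0 := by
          unfold ind
          rw [if_neg hx]
        rw [h7]
        ring
    · exact (dep_ce_fam H' f (u f)).sub (dep_ce_fam H f (u f))
    · have h6 : ∀ x, |ce (fam H' f) (u f) x - ce (fam H f) (u f) x| * ∏ i ∈ f, c i x =
          |ce (fam H' f) (u f) x - ce (fam H f) (u f) x| * ind (cell (fam H f) x0) x := by
        intro x
        have := s7b_pair H x0 x hf
        simp only [hc]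
        rw [this]
      rw [av_congr h6, ce_mul_av_cell (fam H f)
        (fun x => |ce (fam H' f) (u f) x - ce (fam H f) (u f) x|) x0]
      have h7 : av (ind (cell (fam H f) x0)) = ∏ i ∈ f, av (c i) := by
        rw [← av_prod_single f (fun i _ => hcD i)]
        refine av_congr fun x => ?_
        exact (s7b_pair H x0 x hf).symm
      rw [h7]
      refine mul_le_mul_of_nonneg_right (s7b_ce_abs hθ (h4 f hf)) ?_
      exact Finset.prod_nonneg fun i _ => ((ui_ind _).av_mem).1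
  have hcU : ∀ i, UI (c i) := fun i => ui_ind _
  have hci : ∀ e, Ind e (c' e) := fun e => (dep_compl_iff e _).1 (dep_ce_fam G' {e}ᶜ (ind (A e)))
  have loc : ∀ e, av (fun x => |c' e x - α e| * (∏ f ∈ pairs.filter (fun f => e ∉ f), u f x) *
        ∏ i, c i x) ≤
      θ5 * av (fun x => (∏ f ∈ pairs.filter (fun f => e ∉ f), u f x) * ∏ i, c i x) := by
    intro e
    have hsplit : ∀ x, ∏ i, c i x = (∏ i ∈ ({e}ᶜ : Finset (Fin 4)), c i x) * c e x := by
      intro x
      rw [← Finset.prod_compl_mul_prod ({e} : Finset (Fin 4)), Finset.prod_singleton]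
    have hcell : ∀ x, (∏ f ∈ pairs.filter (fun f => e ∉ f), u f x) *
        ∏ i ∈ ({e}ᶜ : Finset (Fin 4)), c i x = ind (cell (J G H e) x0) x := fun x =>
      s7b_cellJ G H e x0 x
    have hJI : Ind e (ind (cell (J G H e) x0)) := by
      have h6 : Ind e (fun x => (∏ f ∈ pairs.filter (fun f => e ∉ f), u f x) *
          ∏ i ∈ ({e}ᶜ : Finset (Fin 4)), c i x) := by
        refine Ind.mul (Ind.prod _ fun f hf => ?_) (Ind.prod _ fun i hi => ?_)
        · exact huD f e (Finset.mem_filter.1 hf).2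
        · refine hcD i e ?_
          rw [Finset.mem_compl] at hi
          intro h
          exact hi (by rw [Finset.mem_singleton] at h ⊢; exact h.symm)
      intro x v
      rw [← hcell, ← hcell]
      exact h6 x v
    have hR : av (fun x => (∏ f ∈ pairs.filter (fun f => e ∉ f), u f x) * ∏ i, c i x) =
        av (ind (cell (J G H e) x0)) * av (c e) := by
      rw [← av_mul_of_ind hJI (hcD e)]
      refine av_congr fun x => ?_
      rw [hsplit, ← mul_assoc, hcell]
    have hpt : ∀ x, |c' e x - α e| * ind (cell (J G H e) x0) x =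
        |c' e x - ce (fam G {e}ᶜ) (ind (A e)) x| * ind (cell (J G H e) x0) x := by
      intro x
      by_cases hx : x ∈ cell (J G H e) x0
      · have hx' : x ∈ cell (fam G {e}ᶜ) x0 :=
          cell_anti (by unfold J; exact Finset.subset_union_left) x0 hx
        have h7 : ce (fam G {e}ᶜ) (ind (A e)) x = α e :=
          cc_ce (fam G {e}ᶜ) (ind (A e)) x0 x hx'
        rw [h7]
      · have h7 : ind (cell (J G H e) x0) x = 0 := by
          unfold ind
          rw [if_neg hx]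
        rw [h7]
        ring
    have hL : av (fun x => |c' e x - α e| * (∏ f ∈ pairs.filter (fun f => e ∉ f), u f x) *
        ∏ i, c i x) = av (fun x => |c' e x - ce (fam G {e}ᶜ) (ind (A e)) x| *
          ind (cell (J G H e) x0) x) * av (c e) := by
      have hI : Ind e (fun x => |c' e x - α e| * ind (cell (J G H e) x0) x) := by
        intro x v
        simp only
        rw [hJI x v, hci e x v]
      rw [← av_congr hpt, ← av_mul_of_ind hI (hcD e)]
      refine av_congr fun x => ?_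
      rw [hsplit, mul_assoc, ← mul_assoc (∏ f ∈ pairs.filter (fun f => e ∉ f), u f x), hcell,
        mul_assoc]
    rw [hL, hR, ce_mul_av_cell (J G H e)
      (fun x => |c' e x - ce (fam G {e}ᶜ) (ind (A e)) x|) x0, ← mul_assoc]
    refine mul_le_mul_of_nonneg_right ?_ ((hcU e).av_mem).1
    exact mul_le_mul_of_nonneg_right (s7b_ce_abs hθ5 (h5 e)) ((ui_ind _).av_mem).1
  have hαU : ∀ e, 0 ≤ α e ∧ α e ≤ 1 := fun e => (ui_ind _).ce x0
  have hmain := count_main (V := V) hPS (A := fun e => ind (A e)) (c' := c') (α := α) (θ5 := θ5)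
    (δ3 := δ3) (fun e => ui_ind _) hA (fun e => (ui_ind _).ce) hci hαU ⟨hθ5, hθ5'⟩ hδ3 unif3 loc
  refine ⟨∏ i, av (c i), ?_, ?_, ?_⟩
  · calc η1 ^ 4 = ∏ _i : Fin 4, η1 := by simp
      _ ≤ ∏ i, av (c i) := Finset.prod_le_prod (fun i _ => h1p.le) (fun i _ => h3 i)
  · exact Finset.prod_le_one (fun i _ => ((hcU i).av_mem).1) (fun i _ => ((hcU i).av_mem).2)
  · refine le_trans ?_ hmain
    have hγ0 : 0 ≤ ∏ i, av (c i) := Finset.prod_nonneg fun i _ => ((hcU i).av_mem).1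
    have hα4 : ε4 ^ 4 ≤ ∏ e, α e := by
      calc ε4 ^ 4 = ∏ _i : Fin 4, ε4 := by simp
        _ ≤ ∏ i, α i := Finset.prod_le_prod (fun i _ => h4p.le) (fun i _ => h1 i)
    have hpc : pairs.card = 6 := by decide
    have hβ6 : η2 ^ 6 ≤ ∏ f ∈ pairs, β f := by
      calc η2 ^ 6 = ∏ _f ∈ pairs, η2 := by rw [Finset.prod_const, hpc]
        _ ≤ ∏ f ∈ pairs, β f := Finset.prod_le_prod (fun i _ => h2p.le) (fun i hi => h2 i hi)
    have hA1 : 0 ≤ ε4 ^ 4 - 4 * θ5 := by linarith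
    have hA2 : ε4 ^ 4 - 4 * θ5 ≤ (∏ e, α e) - 4 * θ5 := by linarith
    have hη : 0 ≤ η2 ^ 6 := by positivity
    have h8 : (ε4 ^ 4 - 4 * θ5) * η2 ^ 6 ≤ ((∏ e, α e) - 4 * θ5) * ∏ f ∈ pairs, β f :=
      mul_le_mul hA2 hβ6 hη (hA1.trans hA2)
    have h9 := mul_le_mul_of_nonneg_right h8 hγ0
    linarith

end SZ4
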