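import Pool.Agent.SZ4.Reg1

/-!
[AP4-S2b] the strong regularity lemma, from `inner_reg`.

Put `n0 = ⌈r / ε⌉ + 1`, and define `c 0 = 0`,
`c (n+1) = c n + K(r, min over j ≤ c n of F j)`, where `K(r, δ)` comes from `inner_reg` (use the
minimum of the finitely many positive numbers `F 0, …, F (c n)`, so that only a bound for the
cardinality is needed; or any positive function `F'` with `F' m ≤ F j` for all `j ≤ m`, e.g. by
recursion `F' 0 = F 0`, `F' (m+1) = min (F' m) (F (m+1))`).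
Given the data build `G_0 = ∅ ⊆ G_1 ⊆ … ⊆ G_{n0}` with `G_{n+1}` from `inner_reg` for `G_n` with
`δ = F' (c n)`; then `G_n.card ≤ c n` and the uniformity constant is `≤ F G_n.card`
(`Unif` is monotone in `δ`).  The energies
`E_n = ∑ i ∈ I, av (ce (fam G_n (s i)) (g i) ^ 2)` are monotone with values in `[0, r]`, so for some
`n < n0` `E_{n+1} - E_n ≤ ε` (otherwise the total would exceed `n0 * ε > r`); by `pythagoras`
(`fam_mono`) this is the sum in the statement.  `G = G_n`, `G' = G_{n+1}`, `M = c n0`.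
-/

set_option linter.unusedSectionVars false

namespace SZ4
open Finset
open scoped Classical

/-- running minimum of `F` -/
noncomputable def s2b_F (F : ℕ → ℝ) : ℕ → ℝ
  | 0 => F 0
  | m + 1 => min (s2b_F F m) (F (m + 1))

theorem s2b_F_pos (F : ℕ → ℝ) (hF : ∀ n, 0 < F n) (m : ℕ) : 0 < s2b_F F m := by
  induction m with
  | zero => exact hF 0
  | succ m ih => exact lt_min ih (hF _)

theorem s2b_F_le (F : ℕ → ℝ) (m : ℕ) : ∀ j, j ≤ m → s2b_F F m ≤ F j := by
  induction m with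
  | zero =>
    intro j hj
    rw [Nat.le_zero.1 hj]
    exact le_rfl
  | succ m ih =>
    intro j hj
    rcases Nat.lt_or_ge j (m + 1) with h | h
    · exact (min_le_left _ _).trans (ih j (Nat.lt_succ_iff.1 h))
    · have : j = m + 1 := le_antisymm hj h
      subst this
      exact min_le_right _ _

/-- the bound of `inner_reg` -/
noncomputable def s2b_K (r : ℕ) (δ : ℝ) : ℕ := if h : 0 < δ then (inner_reg r h).choose else 0

/-- the bounds for the cardinalities -/
noncomputable def s2b_c (r : ℕ) (F : ℕ → ℝ) : ℕ → ℕ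
  | 0 => 0
  | n + 1 => s2b_c r F n + s2b_K r (s2b_F F (s2b_c r F n))

theorem s2b_c_mono (r : ℕ) (F : ℕ → ℝ) : Monotone (s2b_c r F) :=
  monotone_nat_of_le_succ fun n => Nat.le_add_right _ _

theorem s2b_unif_mono {V : Type} [Fintype V] [Nonempty V] {T : Finset (Fin 4)} {δ δ' : ℝ}
    (h : δ ≤ δ') {f : Om V → ℝ} (hf : Unif T δ f) : Unif T δ' f :=
  fun w hw => (hf w hw).trans h

theorem s2b_pigeon (E : ℕ → ℝ) (r ε : ℝ) (hε : 0 < ε) (h0 : 0 ≤ E 0) (hr : ∀ n, E n ≤ r) (N : ℕ)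
    (hN : r < N * ε) : ∃ n, n < N ∧ E (n + 1) - E n ≤ ε := by
  by_contra hcon
  push Not at hcon
  have h1 : ∀ n, n ≤ N → n * ε ≤ E n := by
    intro n
    induction n with
    | zero => intro _; simpa using h0
    | succ n ih =>
      intro hn
      have h2 := ih (by omega)
      have h3 := hcon n (by omega)
      push_cast
      linarith
  have h4 := h1 N le_rfl
  have h5 := hr N
  linarith

theorem strong_reg (r : ℕ) {ε : ℝ} (hε : 0 < ε) (F : ℕ → ℝ) (hF : ∀ n, 0 < F n) :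
    ∃ M : ℕ, ∀ (V : Type) [Fintype V] [Nonempty V] (ι : Type) (I : Finset ι)
      (s : ι → Finset (Fin 4)) (g : ι → Om V → ℝ), I.card ≤ r →
      (∀ i ∈ I, UI (g i)) → (∀ i ∈ I, Dep (s i) (g i)) →
      ∃ G G' : Finset (Set (Om V)), G ⊆ G' ∧ G'.card ≤ M ∧
        (∑ i ∈ I, av (fun x => (ce (fam G' (s i)) (g i) x - ce (fam G (s i)) (g i) x) ^ 2)) ≤ ε ∧
        ∀ i ∈ I, Unif (s i) (F G.card) (fun x => g i x - ce (fam G' (s i)) (g i) x) := by
  obtain ⟨N, hN⟩ : ∃ N : ℕ, (r : ℝ) < N * ε := by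
    obtain ⟨N, hN⟩ := exists_nat_gt ((r : ℝ) / ε)
    exact ⟨N, (div_lt_iff₀ hε).1 hN⟩
  refine ⟨s2b_c r F N, ?_⟩
  intro V _ _ ι I s g hI hg hd
  have hstep : ∀ (n : ℕ) (G : Finset (Set (Om V))), ∃ G' : Finset (Set (Om V)), G ⊆ G' ∧
      G'.card ≤ G.card + s2b_K r (s2b_F F (s2b_c r F n)) ∧
      ∀ i ∈ I, Unif (s i) (s2b_F F (s2b_c r F n)) (fun x => g i x - ce (fam G' (s i)) (g i) x) := by
    intro n G
    have hpos : 0 < s2b_F F (s2b_c r F n) := s2b_F_pos F hF _
    have h1 := (inner_reg r hpos).choose_spec V ι I s g hI hg hd G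
    have h2 : s2b_K r (s2b_F F (s2b_c r F n)) = (inner_reg r hpos).choose := dif_pos hpos
    rw [h2]
    exact h1
  choose nxt hn1 hn2 hn3 using hstep
  let Gs : ℕ → Finset (Set (Om V)) := fun n => Nat.rec ∅ (fun n G => nxt n G) n
  have hGs : ∀ n, Gs (n + 1) = nxt n (Gs n) := fun n => rfl
  have hcard : ∀ n, (Gs n).card ≤ s2b_c r F n := by
    intro n
    induction n with
    | zero => exact Nat.le_of_eq Finset.card_empty
    | succ n ih =>
      rw [hGs]
      exact (hn2 n (Gs n)).trans (Nat.add_le_add_right ih _)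
  have hui : ∀ n, ∀ i ∈ I, UI (ce (fam (Gs n) (s i)) (g i)) := fun n i hi => (hg i hi).ce
  obtain ⟨n, hnN, hE⟩ := s2b_pigeon
    (fun n => ∑ i ∈ I, av (fun x => ce (fam (Gs n) (s i)) (g i) x ^ 2)) r ε hε
    (Finset.sum_nonneg fun i _ => av_nonneg fun x => sq_nonneg _)
    (fun n => by
      calc ∑ i ∈ I, av (fun x => ce (fam (Gs n) (s i)) (g i) x ^ 2) ≤ ∑ i ∈ I, (1 : ℝ) := by
            refine Finset.sum_le_sum fun i hi => ?_
            rw [← av_const (V := V) (1 : ℝ)]
            refine av_mono fun x => ?_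
            obtain ⟨h0, h1⟩ := hui n i hi x
            exact pow_le_one₀ h0 h1
        _ = (I.card : ℝ) := by rw [Finset.sum_const, nsmul_eq_mul, mul_one]
        _ ≤ r := by exact_mod_cast hI) N hN
  have hsub : Gs n ⊆ Gs (n + 1) := by
    rw [hGs]
    exact hn1 n (Gs n)
  refine ⟨Gs n, Gs (n + 1), hsub, (hcard (n + 1)).trans (s2b_c_mono r F (by omega)), ?_, ?_⟩
  · rw [Finset.sum_congr rfl fun i _ => pythagoras (fam_mono hsub (s i)) (g i),
      Finset.sum_sub_distrib]
    exact hE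
  · intro i hi
    refine s2b_unif_mono (s2b_F_le F _ _ (hcard n)) ?_
    rw [hGs]
    exact hn3 n (Gs n) i hi

end SZ4
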