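import Pool.Agent.SZ4.Test

/-!
[AP4-S2a] the regularity lemma, inner step (energy increment).

Let `E G = ∑ i ∈ I, av (ce (fam G (s i)) (g i) ^ 2) ∈ [0, r]`;
it is monotone in `G` (`energy_mono`, `fam_mono`).  Start from `G0`.  If for the present `G` there are
`i ∈ I` and sets `B p` (`p ∈ s i`) with `Dep ((s i).erase p) (ind (B p))` and
`|av ((g i - ce (fam G (s i)) (g i)) * ∏ p ∈ s i, ind (B p))| > δ`, put
`G⁺ = G ∪ (s i).image B`.  All `B p` belong to `fam G⁺ (s i)`, so `w = ∏ ind (B p)` is `CC` for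
`fam G⁺ (s i)`, and by `av_ce_mul` `av (g w) = av (ce (fam G⁺ s) g * w)`; hence
`δ < |av ((ce (fam G⁺ s) g - ce (fam G s) g) w)|` and by Cauchy-Schwarz (`av_mul_sq_le`) and
`0 ≤ w ≤ 1`, `δ ^ 2 ≤ av ((ce (fam G⁺ s) g - ce (fam G s) g) ^ 2)`, which is by `pythagoras` the
energy gain of the task `i`; the other tasks do not lose energy.  So `E G⁺ ≥ E G + δ ^ 2` and
`G⁺.card ≤ G.card + 4`.  As `0 ≤ E ≤ r`, after at most `⌊r / δ ^ 2⌋ + 1` steps the process stops,
and then `test_sets` (with `r := g i - ce (fam G (s i)) (g i)`, which is `Dep (s i)` by `dep_ce_fam`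
and the hypothesis) gives `Unif (s i) δ`.
Formal version: by induction on `n` (for all `G`), if `E G > r - n * δ ^ 2` then there is `G' ⊇ G` with
`G'.card ≤ G.card + 4 * n` and the uniformity.  (For `n = 0` the hypothesis `E G > r` is impossible.)
Take `K = 4 * n` with `n * δ ^ 2 > r`.
-/

set_option linter.unusedSectionVars false

namespace SZ4
open Finset
open scoped Classical

variable {V : Type} [Fintype V] [Nonempty V]

/-- the energy -/
noncomputable def reg1_E {ι : Type} (I : Finset ι) (s : ι → Finset (Fin 4)) (g : ι → Om V → ℝ)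
    (G : Finset (Set (Om V))) : ℝ :=
  ∑ i ∈ I, av (fun x => ce (fam G (s i)) (g i) x ^ 2)

theorem reg1_E_le {ι : Type} (I : Finset ι) (s : ι → Finset (Fin 4)) (g : ι → Om V → ℝ)
    (hg : ∀ i ∈ I, UI (g i)) (G : Finset (Set (Om V))) : reg1_E I s g G ≤ I.card := by
  unfold reg1_E
  have h : ∀ i ∈ I, av (fun x => ce (fam G (s i)) (g i) x ^ 2) ≤ 1 := by
    intro i hi
    have h1 : UI (ce (fam G (s i)) (g i)) := (hg i hi).ce
    have h2 : av (fun x => ce (fam G (s i)) (g i) x ^ 2) ≤ av (fun _ : Om V => (1 : ℝ)) :=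
      av_mono fun x => pow_le_one₀ (h1 x).1 (h1 x).2
    rwa [av_const] at h2
  calc ∑ i ∈ I, av (fun x => ce (fam G (s i)) (g i) x ^ 2) ≤ ∑ _i ∈ I, (1 : ℝ) :=
        Finset.sum_le_sum h
    _ = I.card := by simp

theorem reg1_step {ι : Type} (I : Finset ι) (s : ι → Finset (Fin 4)) (g : ι → Om V → ℝ)
    {δ : ℝ} (hδ : 0 < δ) (G : Finset (Set (Om V))) (i : ι) (hi : i ∈ I)
    (B : Fin 4 → Set (Om V)) (hB : ∀ p ∈ s i, Dep ((s i).erase p) (ind (B p)))
    (hlt : δ < |av (fun x => (g i x - ce (fam G (s i)) (g i) x) * ∏ p ∈ s i, ind (B p) x)|) :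
    ∃ G' : Finset (Set (Om V)), G ⊆ G' ∧ G'.card ≤ G.card + 4 ∧
      reg1_E I s g G + δ ^ 2 ≤ reg1_E I s g G' := by
  refine ⟨G ∪ (s i).image B, Finset.subset_union_left, ?_, ?_⟩
  · refine (Finset.card_union_le _ _).trans ?_
    have h1 : ((s i).image B).card ≤ 4 :=
      Finset.card_image_le.trans ((Finset.card_le_univ _).trans (by simp))
    omega
  · set G' := G ∪ (s i).image B with hG'
    have hsub : G ⊆ G' := Finset.subset_union_left
    have hw : CC (fam G' (s i)) (fun x => ∏ p ∈ s i, ind (B p) x) := by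
      refine CC.prod (s i) fun p hp => cc_ind ?_
      unfold fam
      rw [Finset.mem_filter]
      exact ⟨Finset.mem_union_right _ (Finset.mem_image_of_mem _ hp), p, hp, hB p hp⟩
    have hwui : UI (fun x => ∏ p ∈ s i, ind (B p) x) := UI.prod (s i) fun p _ => ui_ind (B p)
    have h1 : av (fun x => (g i x - ce (fam G (s i)) (g i) x) * ∏ p ∈ s i, ind (B p) x)
        = av (fun x => (ce (fam G' (s i)) (g i) x - ce (fam G (s i)) (g i) x)
          * ∏ p ∈ s i, ind (B p) x) := by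
      have h2 := av_ce_mul (g i) hw
      have h3 : av (fun x => (g i x - ce (fam G (s i)) (g i) x) * ∏ p ∈ s i, ind (B p) x)
          = av (fun x => g i x * ∏ p ∈ s i, ind (B p) x)
            - av (fun x => ce (fam G (s i)) (g i) x * ∏ p ∈ s i, ind (B p) x) := by
        rw [← av_sub]
        exact av_congr fun x => by ring
      have h4 : av (fun x => (ce (fam G' (s i)) (g i) x - ce (fam G (s i)) (g i) x)
          * ∏ p ∈ s i, ind (B p) x)
          = av (fun x => ce (fam G' (s i)) (g i) x * ∏ p ∈ s i, ind (B p) x)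
            - av (fun x => ce (fam G (s i)) (g i) x * ∏ p ∈ s i, ind (B p) x) := by
        rw [← av_sub]
        exact av_congr fun x => by ring
      rw [h3, h4, h2]
    rw [h1] at hlt
    have h5 := av_mul_sq_le (fun x => ce (fam G' (s i)) (g i) x - ce (fam G (s i)) (g i) x)
      (fun x => ∏ p ∈ s i, ind (B p) x)
    have h6 : av (fun x => (∏ p ∈ s i, ind (B p) x) ^ 2) ≤ 1 := by
      have h : av (fun x => (∏ p ∈ s i, ind (B p) x) ^ 2) ≤ av (fun _ : Om V => (1 : ℝ)) :=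
        av_mono fun x => pow_le_one₀ (hwui x).1 (hwui x).2
      rwa [av_const] at h
    have h7 : 0 ≤ av (fun x => (ce (fam G' (s i)) (g i) x - ce (fam G (s i)) (g i) x) ^ 2) :=
      av_nonneg fun x => sq_nonneg _
    have h8 : δ ^ 2 ≤ av (fun x => (ce (fam G' (s i)) (g i) x
        - ce (fam G (s i)) (g i) x) ^ 2) := by
      have h9 : δ ^ 2 ≤ (av (fun x => (ce (fam G' (s i)) (g i) x - ce (fam G (s i)) (g i) x)
          * ∏ p ∈ s i, ind (B p) x)) ^ 2 := by
        rw [← sq_abs (av _)]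
        exact pow_le_pow_left₀ hδ.le hlt.le 2
      calc δ ^ 2 ≤ _ := h9
        _ ≤ _ := h5
        _ ≤ av (fun x => (ce (fam G' (s i)) (g i) x - ce (fam G (s i)) (g i) x) ^ 2) * 1 :=
          mul_le_mul_of_nonneg_left h6 h7
        _ = _ := mul_one _
    rw [pythagoras (fam_mono hsub (s i)) (g i)] at h8
    unfold reg1_E
    rw [← Finset.add_sum_erase I _ hi, ← Finset.add_sum_erase I _ hi]
    have h10 : ∑ j ∈ I.erase i, av (fun x => ce (fam G (s j)) (g j) x ^ 2)
        ≤ ∑ j ∈ I.erase i, av (fun x => ce (fam G' (s j)) (g j) x ^ 2) :=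
      Finset.sum_le_sum fun j _ => energy_mono (fam_mono hsub (s j)) (g j)
    linarith

theorem reg1_iter {ι : Type} (I : Finset ι) (s : ι → Finset (Fin 4)) (g : ι → Om V → ℝ)
    {δ : ℝ} (hδ : 0 < δ) (r : ℕ) (hr : I.card ≤ r) (hg : ∀ i ∈ I, UI (g i))
    (hd : ∀ i ∈ I, Dep (s i) (g i)) (n : ℕ) : ∀ G : Finset (Set (Om V)),
      (r : ℝ) - n * δ ^ 2 < reg1_E I s g G →
      ∃ G' : Finset (Set (Om V)), G ⊆ G' ∧ G'.card ≤ G.card + 4 * n ∧
        ∀ i ∈ I, Unif (s i) δ (fun x => g i x - ce (fam G' (s i)) (g i) x) := by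
  induction n with
  | zero =>
    intro G h
    exfalso
    have h1 := reg1_E_le I s g hg G
    have h2 : (I.card : ℝ) ≤ r := by exact_mod_cast hr
    simp only [Nat.cast_zero, zero_mul, sub_zero] at h
    linarith
  | succ n ih =>
    intro G h
    by_cases hbad : ∃ i ∈ I, ∃ B : Fin 4 → Set (Om V),
        (∀ p ∈ s i, Dep ((s i).erase p) (ind (B p))) ∧
        δ < |av (fun x => (g i x - ce (fam G (s i)) (g i) x) * ∏ p ∈ s i, ind (B p) x)|
    · obtain ⟨i, hi, B, hB, hlt⟩ := hbad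
      obtain ⟨G1, hG1, hc1, he1⟩ := reg1_step I s g hδ G i hi B hB hlt
      obtain ⟨G2, hG2, hc2, hu2⟩ := ih G1 (by push_cast at h; linarith)
      exact ⟨G2, hG1.trans hG2, by omega, hu2⟩
    · push Not at hbad
      refine ⟨G, Finset.Subset.refl _, by omega, fun i hi => ?_⟩
      exact test_sets (Dep.sub (hd i hi) (dep_ce_fam G (s i) (g i))) (hbad i hi)

theorem inner_reg (r : ℕ) {δ : ℝ} (hδ : 0 < δ) :
    ∃ K : ℕ, ∀ (V : Type) [Fintype V] [Nonempty V] (ι : Type) (I : Finset ι)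
      (s : ι → Finset (Fin 4)) (g : ι → Om V → ℝ), I.card ≤ r →
      (∀ i ∈ I, UI (g i)) → (∀ i ∈ I, Dep (s i) (g i)) →
      ∀ G : Finset (Set (Om V)), ∃ G' : Finset (Set (Om V)), G ⊆ G' ∧ G'.card ≤ G.card + K ∧
        ∀ i ∈ I, Unif (s i) δ (fun x => g i x - ce (fam G' (s i)) (g i) x) := by
  obtain ⟨n, hn⟩ := exists_nat_gt ((r : ℝ) / δ ^ 2)
  refine ⟨4 * n, ?_⟩
  intro V _ _ ι I s g hI hg hd G
  refine reg1_iter I s g hδ r hI hg hd n G ?_
  have h1 : 0 ≤ reg1_E I s g G := Finset.sum_nonneg fun i _ => av_nonneg fun x => sq_nonneg _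
  have h2 : (r : ℝ) < n * δ ^ 2 := by
    rwa [div_lt_iff₀ (by positivity)] at hn
  linarith

end SZ4
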