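import Pool.Agent.SZ4.Bad
import Pool.Agent.SZ4.Reg

/-!
[AP4-S7d] The simplex removal lemma (choice of the parameters).

It suffices to treat `ε ≤ 1` (otherwise use `ε = 1`).  Put
`ε4 = ε/5`, `θ5 = ε4^4/8`, `ε3 = θ5^2 * ε/8`;
for `m : ℕ`: `η2 m = ε/(30 * 2^m)`, `θ m = ε4^4 * (η2 m)^6/240`, `ε2 m = (θ m)^2 * ε/15`;
for `m n : ℕ`: `η1 n = ε/(30 * 2^n)`, `δ2 m n = ε4^4 * (η2 m)^6 * (η1 n)^4/240`.
`M1 m` := the bound from `strong_reg` with `r = 6 * 2^m`, `ε := ε2 m`, `F := δ2 m`.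
`F3 m = ε4^4 * (η2 m)^6 * (η1 (M1 m))^4/32`.
`M3` := the bound from `strong_reg` with `r = 4`, `ε := ε3`, `F := F3`.
`M1s = sup over m ≤ M3 of M1 m` (`Finset.sup (range (M3+1)) M1`).
`δ = ε4^4 * (η2 M3)^6 * (η1 M1s)^4/16`.

Given `V`, `A`: apply `strong_reg` (level 3) with `ι = Fin 4`, `I = univ`, `s e = {e}ᶜ`,
`g e = ind (A e)` (`Dep {e}ᶜ` by `dep_compl_iff`): get `G ⊆ G'`, `G'.card ≤ M3`.  Put `m = G.card`.
Apply it (level 2) with `ι = Finset (Fin 4) × Finset (Set (Om V))`, `I = pairs ×ˢ G.powerset`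
(`card = 6 * 2^m`), `s i = i.1`, `g i = ind (pat G i.1 i.2)`: get `H ⊆ H'`, `H'.card ≤ M1 m`.  Put
`n = H.card`.  Let `Bad e = Bad A G G' H H' ε4 (η2 m) (η1 n) (θ m) θ5 e`, `B e = A e \ Bad e`.
 * `Ind e (ind (B e))` from `ind_bad` and `hA` (`ind (A \ B) = ind A * (1 - ind B)`).
 * `A e \ B e = A e ∩ Bad e`, `bad_measure`: at most
   `ε/5 + 3 ε/30 + ε/15 + 3 ε/30 + ε/8 ≤ ε`.
 * If `x0 ∈ B e` for all `e`, then `x0 ∈ A e`, `x0 ∉ Bad e` for all `e`, every pair `f` misses some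
   `e` and every `i` is `≠` some `e`, so the hypotheses `h1 … h5` of `good_point` hold at `x0`
   (`unif2`: `ind (cell (subG G f) x0) = ind (pat G f (G.filter (x0 ∈ ·)))`, which is one of the tasks).
   With `a = ε4^4 * (η2 m)^6`: `(ε4^4 - 4 θ5) (η2 m)^6 γ = a γ/2`, `30 θ γ = a γ/8`,
   `30 δ2 = a (η1 n)^4/8 ≤ a γ/8`, `4 δ3 = a (η1 (M1 m))^4/8 ≤ a (η1 n)^4/8 ≤ a γ/8` (as
   `n ≤ M1 m`).  So `av (∏ ind (A e)) ≥ a γ/8 ≥ a (η1 n)^4/8 ≥ ε4^4 (η2 M3)^6 (η1 M1s)^4/8 = 2 δ > δ`,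
   a contradiction.
-/

set_option linter.unusedSectionVars false

namespace SZ4
open Finset
open scoped Classical

/-- the thresholds `η` -/
noncomputable def s7_h (ε : ℝ) (k : ℕ) : ℝ := ε / (30 * 2 ^ k)

theorem s7_h_pos {ε : ℝ} (hε : 0 < ε) (k : ℕ) : 0 < s7_h ε k := by
  unfold s7_h
  positivity

theorem s7_h_anti {ε : ℝ} (hε : 0 < ε) {j k : ℕ} (h : j ≤ k) : s7_h ε k ≤ s7_h ε j := by
  unfold s7_h
  have h1 : (2 : ℝ) ^ j ≤ 2 ^ k := pow_le_pow_right₀ (by norm_num) h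
  exact div_le_div_of_nonneg_left hε.le (by positivity) (by linarith)

theorem s7_h_mul (ε : ℝ) (k : ℕ) : 2 ^ k * s7_h ε k = ε / 30 := by
  unfold s7_h
  field_simp

theorem s7_exists_notMem {f : Finset (Fin 4)} (hf : f ∈ pairs) : ∃ e : Fin 4, e ∉ f := by
  by_contra h
  push Not at h
  have h1 : f = univ := Finset.eq_univ_iff_forall.2 h
  have h2 := (Finset.mem_powersetCard.1 hf).2
  rw [h1, Finset.card_univ, Fintype.card_fin] at h2
  norm_num at h2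

theorem s7_card_pairs : pairs.card = 6 := by
  unfold pairs
  rw [Finset.card_powersetCard, Finset.card_univ, Fintype.card_fin]
  rfl

/-- the final inequality -/
theorem s7_final {e4 t5 h2 h1 h1' k2 k1 γ P : ℝ} (he4 : 0 < e4) (ht5 : t5 = e4 ^ 4 / 8)
    (hh2 : 0 < h2) (hh1 : 0 < h1) (hh1' : 0 < h1') (hk2 : 0 < k2) (hk1 : 0 < k1)
    (h1'h1 : h1' ≤ h1) (k2h2 : k2 ≤ h2) (k1h1 : k1 ≤ h1) (hγ : h1 ^ 4 ≤ γ)
    (hP : (e4 ^ 4 - 4 * t5) * h2 ^ 6 * γ - 30 * (e4 ^ 4 * h2 ^ 6 / 240 * γ +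
      e4 ^ 4 * h2 ^ 6 * h1 ^ 4 / 240) - 4 * (e4 ^ 4 * h2 ^ 6 * h1' ^ 4 / 32) ≤ P)
    (hPd : P ≤ e4 ^ 4 * k2 ^ 6 * k1 ^ 4 / 16) : False := by
  have ha : 0 < e4 ^ 4 * h2 ^ 6 := by positivity
  have hb : h1' ^ 4 ≤ h1 ^ 4 := pow_le_pow_left₀ hh1'.le h1'h1 4
  have hc : e4 ^ 4 * k2 ^ 6 * k1 ^ 4 ≤ e4 ^ 4 * h2 ^ 6 * h1 ^ 4 := by
    have h3 : k2 ^ 6 ≤ h2 ^ 6 := pow_le_pow_left₀ hk2.le k2h2 6
    have h4 : k1 ^ 4 ≤ h1 ^ 4 := pow_le_pow_left₀ hk1.le k1h1 4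
    gcongr
  have hd : e4 ^ 4 * h2 ^ 6 * h1 ^ 4 ≤ e4 ^ 4 * h2 ^ 6 * γ := mul_le_mul_of_nonneg_left hγ ha.le
  have he : e4 ^ 4 * h2 ^ 6 * h1' ^ 4 ≤ e4 ^ 4 * h2 ^ 6 * h1 ^ 4 :=
    mul_le_mul_of_nonneg_left hb ha.le
  have hf : 0 < e4 ^ 4 * h2 ^ 6 * h1 ^ 4 := by positivity
  rw [ht5] at hP
  have hg : (e4 ^ 4 - 4 * (e4 ^ 4 / 8)) * h2 ^ 6 * γ = e4 ^ 4 * h2 ^ 6 * γ / 2 := by ring
  rw [hg] at hP
  have hi : e4 ^ 4 * h2 ^ 6 / 240 * γ = e4 ^ 4 * h2 ^ 6 * γ / 240 := by ring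
  rw [hi] at hP
  linarith

theorem s7_removal {ε : ℝ} (hε : 0 < ε) (hε1 : ε ≤ 1) :
    ∃ δ : ℝ, 0 < δ ∧ ∀ (V : Type) [Fintype V] [Nonempty V] (A : Fin 4 → Set (Om V)),
      (∀ e, Ind e (ind (A e))) → av (fun x => ∏ e, ind (A e) x) ≤ δ →
      ∃ B : Fin 4 → Set (Om V), (∀ e, Ind e (ind (B e))) ∧ (∀ e, B e ⊆ A e) ∧
        (∀ e, av (ind (A e \ B e)) ≤ ε) ∧ ∀ x, ∃ e, x ∉ B e := by
  obtain ⟨e4, he4⟩ : ∃ e4, e4 = ε / 5 := ⟨_, rfl⟩
  have he4p : 0 < e4 := by rw [he4]; positivity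
  have he41 : e4 ≤ 1 := by rw [he4]; linarith
  obtain ⟨t5, ht5⟩ : ∃ t5, t5 = e4 ^ 4 / 8 := ⟨_, rfl⟩
  have ht5p : 0 < t5 := by rw [ht5]; positivity
  have ht51 : t5 ≤ 1 := by
    have := pow_le_one₀ he4p.le he41 (n := 4)
    rw [ht5]
    linarith
  obtain ⟨h, hh⟩ : ∃ h, h = s7_h ε := ⟨_, rfl⟩
  have hhp : ∀ k, 0 < h k := fun k => by rw [hh]; exact s7_h_pos hε k
  have hha : ∀ {j k : ℕ}, j ≤ k → h k ≤ h j := fun hjk => by rw [hh]; exact s7_h_anti hε hjk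
  have hhm : ∀ k, 2 ^ k * h k = ε / 30 := fun k => by rw [hh]; exact s7_h_mul ε k
  let t : ℕ → ℝ := fun m => e4 ^ 4 * h m ^ 6 / 240
  have htp : ∀ m, 0 < t m := fun m => by
    have := hhp m
    positivity
  let e2 : ℕ → ℝ := fun m => t m ^ 2 * ε / 15
  have he2p : ∀ m, 0 < e2 m := fun m => by
    have := htp m
    positivity
  let d2 : ℕ → ℕ → ℝ := fun m n => e4 ^ 4 * h m ^ 6 * h n ^ 4 / 240
  have hd2p : ∀ m n, 0 < d2 m n := fun m n => by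
    have h1 := hhp m
    have h2 := hhp n
    positivity
  have hM1 := fun m : ℕ => strong_reg (6 * 2 ^ m) (he2p m) (d2 m) (hd2p m)
  choose M1 hM1 using hM1
  let F3 : ℕ → ℝ := fun m => e4 ^ 4 * h m ^ 6 * h (M1 m) ^ 4 / 32
  have hF3p : ∀ m, 0 < F3 m := fun m => by
    have h1 := hhp m
    have h2 := hhp (M1 m)
    positivity
  obtain ⟨e3, he3⟩ : ∃ e3, e3 = t5 ^ 2 * ε / 8 := ⟨_, rfl⟩
  have he3p : 0 < e3 := by rw [he3]; positivity
  obtain ⟨M3, hM3⟩ := strong_reg 4 he3p F3 hF3p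
  let M1s : ℕ := (Finset.range (M3 + 1)).sup M1
  refine ⟨e4 ^ 4 * h M3 ^ 6 * h M1s ^ 4 / 16, ?_, ?_⟩
  · have h1 := hhp M3
    have h2 := hhp M1s
    positivity
  intro V _ _ A hA hsmall
  obtain ⟨G, G', hG, hG'c, hGe, hGu⟩ := hM3 V (Fin 4) univ (fun e => {e}ᶜ) (fun e => ind (A e))
    (by rw [Finset.card_univ, Fintype.card_fin]) (fun e _ => ui_ind (A e))
    (fun e _ => (dep_compl_iff e _).2 (hA e))
  have hGM : G.card ≤ M3 := (Finset.card_le_card hG).trans hG'c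
  obtain ⟨H, H', hH, hH'c, hHe, hHu⟩ := hM1 G.card V (Finset (Fin 4) × Finset (Set (Om V)))
    (pairs ×ˢ G.powerset) (fun i => i.1) (fun i => ind (pat G i.1 i.2))
    (by rw [Finset.card_product, s7_card_pairs, Finset.card_powerset])
    (fun i _ => ui_ind _) (fun i _ => dep_ind_pat G i.1 i.2)
  have hHM : H.card ≤ M1 G.card := (Finset.card_le_card hH).trans hH'c
  have hHMs : H.card ≤ M1s := hHM.trans (Finset.le_sup (f := M1) (Finset.mem_range.2 (by omega)))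
  let Bd : Fin 4 → Set (Om V) :=
    fun e => Bad A G G' H H' e4 (h G.card) (h H.card) (t G.card) t5 e
  have hBd : ∀ e, Ind e (ind (Bd e)) := fun e => ind_bad G G' H H' _ _ _ _ _ e
  refine ⟨fun e => A e \ Bd e, ?_, fun e => Set.sdiff_subset, ?_, ?_⟩
  · intro e
    have h1 : ind (A e \ Bd e) = fun x => ind (A e) x * (1 - ind (Bd e) x) := by
      funext x
      unfold ind
      by_cases h2 : x ∈ A e
      · by_cases h3 : x ∈ Bd e
        · simp [h2, h3]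
        · simp [h2, h3]
      · simp [h2]
    show Ind e (ind (A e \ Bd e))
    rw [h1]
    intro x v
    dsimp only
    rw [hA e x v, hBd e x v]
  · intro e
    have h1 : A e \ (A e \ Bd e) = A e ∩ Bd e := by
      ext x
      constructor
      · rintro ⟨h2, h3⟩
        refine ⟨h2, ?_⟩
        by_contra h4
        exact h3 ⟨h2, h4⟩
      · rintro ⟨h2, h3⟩
        exact ⟨h2, fun h4 => h4.2 h3⟩
    show av (ind (A e \ (A e \ Bd e))) ≤ ε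
    rw [h1]
    have h2 := bad_measure A G G' H H' he4p (hhp G.card) (hhp H.card) (htp G.card) ht5p hHe hGe e
    refine h2.trans ?_
    have h3 : e2 G.card / t G.card ^ 2 = ε / 15 := by
      have := (htp G.card).ne'
      show t G.card ^ 2 * ε / 15 / t G.card ^ 2 = ε / 15
      field_simp
    have h4 : e3 / t5 ^ 2 = ε / 8 := by
      rw [he3]
      have := ht5p.ne'
      field_simp
    rw [h3, h4, hhm, hhm, he4]
    linarith
  · by_contra hcon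
    push Not at hcon
    obtain ⟨x0, hx0⟩ := hcon
    have hxA : ∀ e, x0 ∈ A e := fun e => (hx0 e).1
    have hxB : ∀ e, x0 ∉ Bd e := fun e => (hx0 e).2
    have hb1 : ∀ e, e4 ≤ ce (fam G {e}ᶜ) (ind (A e)) x0 := by
      intro e
      by_contra h1
      exact hxB e (Or.inl (not_le.1 h1))
    have hb2 : ∀ f ∈ pairs, h G.card ≤ ce (fam H f) (ind (cell (subG G f) x0)) x0 := by
      intro f hf
      by_contra h1
      obtain ⟨e, he⟩ := s7_exists_notMem hf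
      exact hxB e (Or.inr (Or.inl ⟨f, hf, he, not_le.1 h1⟩))
    have hb4 : ∀ f ∈ pairs, ce (fam H f) (fun y => (ce (fam H' f) (ind (cell (subG G f) x0)) y -
        ce (fam H f) (ind (cell (subG G f) x0)) y) ^ 2) x0 ≤ t G.card ^ 2 := by
      intro f hf
      by_contra h1
      obtain ⟨e, he⟩ := s7_exists_notMem hf
      exact hxB e (Or.inr (Or.inr (Or.inl ⟨f, hf, he, not_le.1 h1⟩)))
    have hb3 : ∀ i : Fin 4, h H.card ≤ av (ind (cell (subG H {i}) x0)) := by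
      intro i
      by_contra h1
      obtain ⟨e, he⟩ : ∃ e : Fin 4, i ≠ e := by
        by_cases h2 : i = 0
        · exact ⟨1, by rw [h2]; decide⟩
        · exact ⟨0, h2⟩
      exact hxB e (Or.inr (Or.inr (Or.inr (Or.inl ⟨i, he, not_le.1 h1⟩))))
    have hb5 : ∀ e, ce (J G H e) (fun y => (ce (fam G' {e}ᶜ) (ind (A e)) y -
        ce (fam G {e}ᶜ) (ind (A e)) y) ^ 2) x0 ≤ t5 ^ 2 := by
      intro e
      by_contra h1
      exact hxB e (Or.inr (Or.inr (Or.inr (Or.inr (not_le.1 h1)))))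
    have hu3 : ∀ e, Unif {e}ᶜ (F3 G.card)
        (fun x => ind (A e) x - ce (fam G' {e}ᶜ) (ind (A e)) x) :=
      fun e => hGu e (Finset.mem_univ e)
    have hu2 : ∀ f ∈ pairs, Unif f (d2 G.card H.card)
        (fun x => ind (cell (subG G f) x0) x - ce (fam H' f) (ind (cell (subG G f) x0)) x) := by
      intro f hf
      rw [cell_eq_pat]
      exact hHu (f, G.filter (fun B => x0 ∈ B)) (Finset.mem_product.2
        ⟨hf, Finset.mem_powerset.2 (Finset.filter_subset _ _)⟩)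
    obtain ⟨γ, hγ1, hγ2, hγ3⟩ := good_point hA hG hH he4p (hhp G.card) (hhp H.card)
      (htp G.card).le ht5p.le ht51 (by rw [ht5]; have : 0 < e4 ^ 4 := by positivity
                                       linarith) (hd2p G.card H.card).le
      (hF3p G.card).le hu3 x0 hu2 hb1 hb2 hb3 hb4 hb5
    exact s7_final he4p ht5 (hhp G.card) (hhp H.card) (hhp (M1 G.card)) (hhp M3) (hhp M1s)
      (hha hHM) (hha hGM) (hha hHMs) hγ1 hγ3 hsmall

theorem removal {ε : ℝ} (hε : 0 < ε) :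
    ∃ δ : ℝ, 0 < δ ∧ ∀ (V : Type) [Fintype V] [Nonempty V] (A : Fin 4 → Set (Om V)),
      (∀ e, Ind e (ind (A e))) → av (fun x => ∏ e, ind (A e) x) ≤ δ →
      ∃ B : Fin 4 → Set (Om V), (∀ e, Ind e (ind (B e))) ∧ (∀ e, B e ⊆ A e) ∧
        (∀ e, av (ind (A e \ B e)) ≤ ε) ∧ ∀ x, ∃ e, x ∉ B e := by
  obtain ⟨δ, hδ, h⟩ := s7_removal (ε := min ε 1) (lt_min hε one_pos) (min_le_right _ _)
  refine ⟨δ, hδ, ?_⟩
  intro V _ _ A hA hsmall
  obtain ⟨B, h1, h2, h3, h4⟩ := h V A hA hsmall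
  exact ⟨B, h1, h2, fun e => (h3 e).trans (min_le_left _ _), h4⟩

end SZ4
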