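import Pool.Agent.SZ4.Ce

/-!
[AP4-S3] It is enough to test uniformity against sets `B p`, `p ∈ s`, with `B p` depending only on
the coordinates in `s.erase p`.

Proof.  Step 1 (functions `a p` with `Dep (s.erase p) (a p)`).  Replace the functions by sets one at
a time.  Claim: for `t : Finset (Fin 4)`, `R : Om V → ℝ` (here `R x = r x * (the other factors)`) and
`a` with `Dep t a`, `UI a` there is a set `B` with `Dep t (ind B)` and
`av (R * a) ≤ av (R * ind B)`: put `h = proj t R` (`Dep t h`, see `Av.lean`), then
`av (R a) = av (h a) ≤ av (h * ind {0 ≤ h}) = av (R * ind {0 ≤ h})`, as `h a ≤ h * ind {0 ≤ h}`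
pointwise.  Apply it also to `-R`.  So: for all `r` (no condition), by induction on a finset `u ⊆ s`
of the indices at which `a p` is a function and not an indicator:
`|av (r * ∏ p ∈ s, a p)| ≤ δ`.
(Convenient formulation: for every `u : Finset (Fin 4)` and all `a` with `Dep (s.erase p) (a p)`,
`UI (a p)` for `p ∈ s`, and `a p = ind (B p)` for `p ∈ s \ u`, one has `av (r * ∏ a) ≤ δ`, for every
`r` which satisfies `h`; use it for `r` and `-r`.)

Step 2 (general `a p` with `Ind p (a p)`).  By `av_fiber s`,
`av (r * ∏ a p) = av_z av_x [r (s.piecewise x z) * ∏ p ∈ s, a p (s.piecewise x z)]` and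
`r (s.piecewise x z) = r x` as `Dep s r`.  For fixed `z` the function
`x ↦ a p (s.piecewise x z)` has `Dep (s.erase p)`.  So Step 1 bounds the inner average by `δ` for
every `z`, and `|av_z ..| ≤ av_z |..| ≤ δ`.
-/

set_option linter.unusedSectionVars false

namespace SZ4
open Finset
open scoped Classical

variable {V : Type} [Fintype V] [Nonempty V]

theorem s3_step {t : Finset (Fin 4)} (R a : Om V → ℝ) (ha : Dep t a) (hu : UI a) :
    ∃ B : Set (Om V), Dep t (ind B) ∧
      av (fun x => R x * a x) ≤ av (fun x => R x * ind B x) := by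
  have hd : Dep t (ind {x | 0 ≤ proj t R x}) := by
    rw [dep_ind_iff]
    intro p hp x v
    have h1 := dep_proj t R p hp x v
    show 0 ≤ proj t R (Function.update x p v) ↔ 0 ≤ proj t R x
    rw [h1]
  refine ⟨{x | 0 ≤ proj t R x}, hd, ?_⟩
  rw [av_proj_mul R ha, av_proj_mul R hd]
  refine av_mono fun x => ?_
  obtain ⟨h0, h1⟩ := hu x
  unfold ind
  by_cases h : 0 ≤ proj t R x
  · have h2 : x ∈ {x | 0 ≤ proj t R x} := h
    rw [if_pos h2, mul_one]
    exact mul_le_of_le_one_right h h1
  · have h2 : x ∉ {x | 0 ≤ proj t R x} := h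
    rw [if_neg h2, mul_zero]
    exact mul_nonpos_of_nonpos_of_nonneg (not_le.1 h).le h0

theorem s3_main {s : Finset (Fin 4)} {r : Om V → ℝ} {δ : ℝ}
    (h : ∀ B : Fin 4 → Set (Om V), (∀ p ∈ s, Dep (s.erase p) (ind (B p))) →
      av (fun x => r x * ∏ p ∈ s, ind (B p) x) ≤ δ) (u : Finset (Fin 4)) :
    ∀ a : Fin 4 → Om V → ℝ, (∀ p ∈ s, Dep (s.erase p) (a p)) → (∀ p ∈ s, UI (a p)) →
      (∀ p ∈ s, p ∉ u → ∃ B : Set (Om V), a p = ind B) →
      av (fun x => r x * ∏ p ∈ s, a p x) ≤ δ := by
  induction u using Finset.induction_on with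
  | empty =>
    intro a ha _ hB
    have hB' : ∀ p : Fin 4, ∃ B : Set (Om V), p ∈ s → a p = ind B := by
      intro p
      by_cases hp : p ∈ s
      · obtain ⟨B, hB1⟩ := hB p hp (Finset.notMem_empty p)
        exact ⟨B, fun _ => hB1⟩
      · exact ⟨∅, fun h' => absurd h' hp⟩
    choose B hB1 using hB'
    have h1 := h B (fun p hp => by rw [← hB1 p hp]; exact ha p hp)
    have h2 : av (fun x => r x * ∏ p ∈ s, a p x) = av (fun x => r x * ∏ p ∈ s, ind (B p) x) := by
      refine av_congr fun x => ?_
      rw [Finset.prod_congr rfl fun p hp => congrFun (hB1 p hp) x]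
    rw [h2]
    exact h1
  | insert p0 u hp0 IH =>
    intro a ha hu hB
    by_cases hs : p0 ∈ s
    · obtain ⟨B, hB1, hB2⟩ := s3_step (fun x => r x * ∏ p ∈ s.erase p0, a p x) (a p0)
        (ha p0 hs) (hu p0 hs)
      have h1 : av (fun x => r x * ∏ p ∈ s, a p x) =
          av (fun x => (r x * ∏ p ∈ s.erase p0, a p x) * a p0 x) := by
        refine av_congr fun x => ?_
        rw [← Finset.mul_prod_erase s (fun p => a p x) hs]
        ring
      rw [h1]
      refine hB2.trans ?_
      have h2 : av (fun x => (r x * ∏ p ∈ s.erase p0, a p x) * ind B x) =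
          av (fun x => r x * ∏ p ∈ s, Function.update a p0 (ind B) p x) := by
        refine av_congr fun x => ?_
        rw [← Finset.mul_prod_erase s (fun p => Function.update a p0 (ind B) p x) hs,
          Function.update_self]
        have h3 : ∏ p ∈ s.erase p0, Function.update a p0 (ind B) p x =
            ∏ p ∈ s.erase p0, a p x := by
          refine Finset.prod_congr rfl fun p hp => ?_
          rw [Function.update_of_ne (Finset.ne_of_mem_erase hp)]
        rw [h3]
        ring
      rw [h2]
      refine IH _ ?_ ?_ ?_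
      · intro p hp
        by_cases hpp : p = p0
        · subst hpp
          rw [Function.update_self]
          exact hB1
        · rw [Function.update_of_ne hpp]
          exact ha p hp
      · intro p hp
        by_cases hpp : p = p0
        · subst hpp
          rw [Function.update_self]
          exact ui_ind B
        · rw [Function.update_of_ne hpp]
          exact hu p hp
      · intro p hp hpu
        by_cases hpp : p = p0
        · subst hpp
          exact ⟨B, by rw [Function.update_self]⟩
        · rw [Function.update_of_ne hpp]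
          refine hB p hp ?_
          rw [Finset.mem_insert]
          rintro (h' | h')
          · exact hpp h'
          · exact hpu h'
    · refine IH a ha hu fun p hp hpu => hB p hp ?_
      rw [Finset.mem_insert]
      rintro (h' | h')
      · exact hs (h' ▸ hp)
      · exact hpu h'

theorem s3_dep {s : Finset (Fin 4)} {p : Fin 4} {a : Om V → ℝ} (ha : Ind p a)
    (z : Om V) : Dep (s.erase p) (fun x => a (s.piecewise x z)) := by
  intro q hq x v
  change a (s.piecewise (Function.update x q v) z) = a (s.piecewise x z)
  by_cases hqs : q ∈ s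
  · have hqp : q = p := by
      by_contra hne
      exact hq (Finset.mem_erase.2 ⟨hne, hqs⟩)
    subst hqp
    have h1 : s.piecewise (Function.update x q v) z = Function.update (s.piecewise x z) q v := by
      funext i
      by_cases hi : i = q
      · subst hi
        rw [Function.update_self, Finset.piecewise_eq_of_mem _ _ _ hqs, Function.update_self]
      · rw [Function.update_of_ne hi]
        by_cases his : i ∈ s
        · rw [Finset.piecewise_eq_of_mem _ _ _ his, Finset.piecewise_eq_of_mem _ _ _ his,
            Function.update_of_ne hi]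
        · rw [Finset.piecewise_eq_of_notMem _ _ _ his, Finset.piecewise_eq_of_notMem _ _ _ his]
    rw [h1, ha]
  · have h1 : s.piecewise (Function.update x q v) z = s.piecewise x z := by
      funext i
      by_cases his : i ∈ s
      · have hi : i ≠ q := fun h => hqs (h ▸ his)
        rw [Finset.piecewise_eq_of_mem _ _ _ his, Finset.piecewise_eq_of_mem _ _ _ his,
          Function.update_of_ne hi]
      · rw [Finset.piecewise_eq_of_notMem _ _ _ his, Finset.piecewise_eq_of_notMem _ _ _ his]
    rw [h1]

theorem test_sets {s : Finset (Fin 4)} {r : Om V → ℝ} (hr : Dep s r) {δ : ℝ}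
    (h : ∀ B : Fin 4 → Set (Om V), (∀ p ∈ s, Dep (s.erase p) (ind (B p))) →
      |av (fun x => r x * ∏ p ∈ s, ind (B p) x)| ≤ δ) :
    Unif s δ r := by
  rintro w ⟨a, ha, hu, hw⟩
  have hneg : ∀ f : Om V → ℝ, av (fun x => -f x) = -av f := by
    intro f
    have h1 := av_const_mul (-1) f
    rw [neg_one_mul] at h1
    rw [← h1]
    exact av_congr fun x => (neg_one_mul _).symm
  have key : ∀ z : Om V, |av (fun x => r x * ∏ p ∈ s, a p (s.piecewise x z))| ≤ δ := by
    intro z
    have hd : ∀ p ∈ s, Dep (s.erase p) (fun x => a p (s.piecewise x z)) :=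
      fun p hp => s3_dep (ha p hp) z
    have hui : ∀ p ∈ s, UI (fun x => a p (s.piecewise x z)) := fun p hp x => hu p hp _
    have h1 := s3_main (r := r) (δ := δ) (fun B hB => (le_abs_self _).trans (h B hB)) s
      (fun p x => a p (s.piecewise x z)) hd hui (fun p hp hn => absurd hp hn)
    have h2 := s3_main (r := fun x => -r x) (δ := δ) (fun B hB => by
      have h3 : av (fun x => -r x * ∏ p ∈ s, ind (B p) x) =
          -av (fun x => r x * ∏ p ∈ s, ind (B p) x) := by
        rw [← hneg]
        exact av_congr fun x => neg_mul _ _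
      rw [h3]
      exact (neg_le_abs _).trans (h B hB)) s
      (fun p x => a p (s.piecewise x z)) hd hui (fun p hp hn => absurd hp hn)
    have h4 : av (fun x => -r x * ∏ p ∈ s, a p (s.piecewise x z)) =
        -av (fun x => r x * ∏ p ∈ s, a p (s.piecewise x z)) := by
      rw [← hneg]
      exact av_congr fun x => neg_mul _ _
    rw [h4] at h2
    rw [abs_le]
    exact ⟨by linarith, h1⟩
  have h1 : av (fun x => r x * w x) =
      av (fun z => av (fun x => r x * ∏ p ∈ s, a p (s.piecewise x z))) := by
    rw [av_fiber s (fun x => r x * w x)]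
    refine av_congr fun z => av_congr fun x => ?_
    change r (s.piecewise x z) * w (s.piecewise x z) = _
    rw [hr.piecewise, hw]
  rw [h1]
  calc |av (fun z => av (fun x => r x * ∏ p ∈ s, a p (s.piecewise x z)))| ≤
      av (fun z => |av (fun x => r x * ∏ p ∈ s, a p (s.piecewise x z))|) := abs_av_le _
    _ ≤ av (fun _ => δ) := av_mono key
    _ = δ := av_const δ

end SZ4
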